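import Mathlib

set_option autoImplicit false

/-!
# TaskSM2, part 4: smoothing does not increase mean squares
-/

open MeasureTheory Set Filter Topology

namespace Pool.Agent.H295.SM2

lemma jensen {ψ g : ℝ → ℝ} (hψ : Continuous ψ) (h0 : ∀ v, 0 ≤ ψ v) (h1 : ∫ v in (0:ℝ)..1, ψ v = 1)
    (hg : Continuous g) : (∫ v in (0:ℝ)..1, ψ v * g v) ^ 2 ≤ ∫ v in (0:ℝ)..1, ψ v * g v ^ 2 := by
  obtain ⟨G, hG⟩ : ∃ G, G = ∫ v in (0:ℝ)..1, ψ v * g v := ⟨_, rfl⟩
  rw [← hG]
  have h2 : 0 ≤ ∫ v in (0:ℝ)..1, ψ v * (g v - G) ^ 2 := by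
    apply intervalIntegral.integral_nonneg (by norm_num)
    intro v _
    have := h0 v
    positivity
  have c1 : Continuous (fun v => ψ v * g v ^ 2) := by fun_prop
  have c2 : Continuous (fun v => (2 * G) * (ψ v * g v)) := by fun_prop
  have c3 : Continuous (fun v => G ^ 2 * ψ v) := by fun_prop
  have c12 : Continuous (fun v => ψ v * g v ^ 2 - (2 * G) * (ψ v * g v)) := by fun_prop
  have h3 : ∫ v in (0:ℝ)..1, ψ v * (g v - G) ^ 2 = (∫ v in (0:ℝ)..1, ψ v * g v ^ 2) - 2 * G * (∫ v in (0:ℝ)..1, ψ v * g v) +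
      G ^ 2 * ∫ v in (0:ℝ)..1, ψ v := by
    have e : ∀ v, ψ v * (g v - G) ^ 2 = (ψ v * g v ^ 2 - (2 * G) * (ψ v * g v)) + G ^ 2 * ψ v := fun v => by ring
    simp_rw [e]
    rw [intervalIntegral.integral_add (c12.intervalIntegrable _ _) (c3.intervalIntegrable _ _),
      intervalIntegral.integral_sub (c1.intervalIntegrable _ _) (c2.intervalIntegrable _ _),
      intervalIntegral.integral_const_mul, intervalIntegral.integral_const_mul]
  rw [h3, h1, ← hG] at h2
  linarith

lemma smooth_L2 {ψ D : ℝ → ℝ} (hψ : Continuous ψ) (h0 : ∀ v, 0 ≤ ψ v) (h1 : ∫ v in (0:ℝ)..1, ψ v = 1)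
    (hD : Continuous D) {U θ : ℝ} (hU : 0 ≤ U) (hθ : 0 ≤ θ) (hθU : 2 * θ ≤ U) :
    ∫ u in U..(2 * U), (∫ v in (0:ℝ)..1, ψ v * D (u - θ * v)) ^ 2 ≤ ∫ u in (U / 2)..(2 * U), D u ^ 2 := by
  have hc2 : Continuous (Function.uncurry (fun u v : ℝ => ψ v * D (u - θ * v) ^ 2)) := by
    unfold Function.uncurry
    fun_prop
  have hc1 : Continuous (Function.uncurry (fun u v : ℝ => ψ v * D (u - θ * v))) := by
    unfold Function.uncurry
    fun_prop
  have s1 : ∫ u in U..(2 * U), (∫ v in (0:ℝ)..1, ψ v * D (u - θ * v)) ^ 2 ≤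
      ∫ u in U..(2 * U), ∫ v in (0:ℝ)..1, ψ v * D (u - θ * v) ^ 2 := by
    apply intervalIntegral.integral_mono_on (by linarith)
    · apply Continuous.intervalIntegrable
      have := intervalIntegral.continuous_parametric_intervalIntegral_of_continuous' (μ := volume) hc1 0 1
      exact this.pow 2
    · apply Continuous.intervalIntegrable
      exact intervalIntegral.continuous_parametric_intervalIntegral_of_continuous' (μ := volume) hc2 0 1
    · intro u _
      exact jensen hψ h0 h1 (g := fun v => D (u - θ * v)) (by fun_prop)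
  refine s1.trans ?_
  rw [intervalIntegral_intervalIntegral_swap]
  · have s2 : ∀ v ∈ Icc (0:ℝ) 1, ∫ u in U..(2 * U), ψ v * D (u - θ * v) ^ 2 ≤ ψ v * ∫ u in (U / 2)..(2 * U), D u ^ 2 := by
      intro v hv
      rw [intervalIntegral.integral_const_mul]
      apply mul_le_mul_of_nonneg_left _ (h0 v)
      rw [intervalIntegral.integral_comp_sub_right (fun u => D u ^ 2) (θ * v)]
      have hv1 : θ * v ≤ θ := by
        have := hv.2
        calc θ * v ≤ θ * 1 := by gcongr
          _ = θ := mul_one _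
      have hv0 : 0 ≤ θ * v := mul_nonneg hθ hv.1
      apply intervalIntegral.integral_mono_interval
      · linarith
      · linarith
      · linarith
      · exact ae_of_all _ (fun u => sq_nonneg _)
      · apply Continuous.intervalIntegrable
        fun_prop
    calc ∫ v in (0:ℝ)..1, ∫ u in U..(2 * U), ψ v * D (u - θ * v) ^ 2
        ≤ ∫ v in (0:ℝ)..1, ψ v * ∫ u in (U / 2)..(2 * U), D u ^ 2 := by
          apply intervalIntegral.integral_mono_on (by norm_num)
          · apply Continuous.intervalIntegrable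
            have hc3 : Continuous (Function.uncurry (fun v u : ℝ => ψ v * D (u - θ * v) ^ 2)) := by
              unfold Function.uncurry
              fun_prop
            exact intervalIntegral.continuous_parametric_intervalIntegral_of_continuous' (μ := volume) hc3 U (2 * U)
          · apply Continuous.intervalIntegrable
            fun_prop
          · exact s2
      _ = _ := by rw [intervalIntegral.integral_mul_const, h1, one_mul]
  · exact (hc2.continuousOn.integrableOn_compact (isCompact_uIcc.prod isCompact_uIcc)).mono_set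
      (Set.prod_mono uIoc_subset_uIcc uIoc_subset_uIcc)

end Pool.Agent.H295.SM2
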