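import Pool.Agent.H295.SM2.Coef
import Pool.Agent.H295.SM2.Smooth

set_option autoImplicit false

/-!
# TaskSM2, part 5: the dual sum is close to its low frequency part in mean square
-/

open MeasureTheory Set Filter Topology

namespace Pool.Agent.H295.SM2

open Pool.Agent.H469R10.HO Pool.Agent.H13R3.EM Pool.Agent.H472.Q2 Pool.Agent.H295.SM1

variable {m : ℕ} {c M : ℝ} {α : ℕ → ℝ}

/-- the index set `0 < u_n ≤ J` -/
noncomputable def FF (m : ℕ) (c J : ℝ) : Finset ℕ := Finset.Icc 1 ⌊(J / c) ^ (lamQ m)⌋₊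

/-- low part -/
noncomputable def Lo (m : ℕ) (c : ℝ) (α : ℕ → ℝ) (ρ φ J x : ℝ) : ℝ :=
  x ^ ((m : ℝ) + 3 / 4) * (ρ * hS (FF m c J) (bb m c α) (om m c) φ x)

lemma Lo_cont (ρ φ J : ℝ) : Continuous (Lo m c α ρ φ J) := by
  unfold Lo
  have h1 := cont_rpow (q := (m : ℝ) + 3 / 4) (by positivity)
  have h2 := hS_cont (FF m c J) (bb m c α) (om m c) φ
  fun_prop

/-- the term estimate as a predicate -/
def TermB (m : ℕ) (c : ℝ) (α : ℕ → ℝ) (ρ φ C : ℝ) : Prop := ∀ n : ℕ, 1 ≤ n →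
    ∀ x : ℝ, 0 < x → 1 ≤ uu c (lamQ m) n * x →
    |α n * uu c (lamQ m) n ^ (2 * m + 1) * BB m (uu c (lamQ m) n) x -
      x ^ ((m : ℝ) + 3 / 4) * (ρ * (bb m c α n * Real.cos (om m c n * √x - φ)))| ≤
      C * (|α n| * uu c (lamQ m) n ^ ((m : ℝ) - 3 / 4)) * x ^ ((m : ℝ) + 1 / 4)

lemma D_bound (hD : DataSM m c M α) {ρ φ C : ℝ} (hC : 0 ≤ C) (ht : TermB m c α ρ φ C) :
    ∃ K : ℝ, 0 ≤ K ∧ ∀ U : ℝ, 1 ≤ U → 2 / c ≤ U → ∀ J : ℝ, 1 ≤ J → J ≤ U ^ (7 / 8 : ℝ) →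
      ∫ x in (U / 2)..(2 * U), (MS m c α (U ^ (7 / 8 : ℝ)) x - Lo m c α ρ φ J x) ^ 2 ≤
        K * (U ^ (2 * (m : ℝ) + 3 / 2) + U ^ (2 * (m : ℝ) + 5 / 2) * J ^ (-(1 / 4) : ℝ)) := by
  obtain ⟨B1, hB1, hB⟩ := sum_al hD
  have hc := hD.hc
  have hM := hM0 hD
  have hm1 : (1 : ℝ) ≤ m := by exact_mod_cast hD.hm
  set q : ℝ := 2 * (m : ℝ) + 3 / 2 with hq
  set G : ℝ := 2 * ∑' d, kerG d with hG
  have hG0 : 0 ≤ G := by
    have : 0 ≤ ∑' d, kerG d := tsum_nonneg kerG_nonneg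
    positivity
  refine ⟨2 * (C * B1) ^ 2 * 2 ^ (2 * (m : ℝ) + 3 / 2) + 2 * ρ ^ 2 * ((2 * q + 5) * 2 ^ (2 * (m : ℝ) + 5 / 2) * (G * M)),
    by positivity, ?_⟩
  intro U hU1 hUc J hJ1 hJY
  have hU0 : 0 < U := by linarith
  set Y := U ^ (7 / 8 : ℝ) with hY
  have hY0 : 0 < Y := by positivity
  have hJ0 : 0 < J := by linarith
  have hsub : FF m c J ⊆ FF m c Y := by
    intro n hn
    unfold FF at hn ⊢
    rw [mem_Icc_iff hc hJ0.le] at hn
    rw [mem_Icc_iff hc hY0.le]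
    exact ⟨hn.1, hn.2.trans hJY⟩
  set H := FF m c Y \ FF m c J with hH
  have hHmem : ∀ n ∈ H, 1 ≤ n ∧ J ≤ uu c (lamQ m) n ∧ uu c (lamQ m) n ≤ Y := by
    intro n hn
    rw [hH, Finset.mem_sdiff] at hn
    unfold FF at hn
    rw [mem_Icc_iff hc hY0.le, mem_Icc_iff hc hJ0.le] at hn
    refine ⟨hn.1.1, ?_, hn.1.2⟩
    by_contra h
    push Not at h
    exact hn.2 ⟨hn.1.1, h.le⟩
  -- pointwise
  have hpt : ∀ x ∈ Icc (U / 2) (2 * U), (MS m c α Y x - Lo m c α ρ φ J x) ^ 2 ≤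
      2 * (C * B1) ^ 2 * (2 * U) ^ (2 * (m : ℝ) + 1 / 2) +
      2 * ρ ^ 2 * (x ^ q * hS H (bb m c α) (fun n => 2 * √(uu c (lamQ m) n)) φ x ^ 2) := by
    intro x hx
    have hx0 : 0 < x := lt_of_lt_of_le (by positivity) hx.1
    set R1 := ∑ n ∈ FF m c Y, (α n * uu c (lamQ m) n ^ (2 * m + 1) * BB m (uu c (lamQ m) n) x -
      x ^ ((m : ℝ) + 3 / 4) * (ρ * (bb m c α n * Real.cos (om m c n * √x - φ)))) with hR1
    set R2 := x ^ ((m : ℝ) + 3 / 4) * (ρ * hS H (bb m c α) (om m c) φ x) with hR2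
    have e1 : MS m c α Y x - Lo m c α ρ φ J x = R1 + R2 := by
      have a1 : MS m c α Y x = ∑ n ∈ FF m c Y, α n * uu c (lamQ m) n ^ (2 * m + 1) * BB m (uu c (lamQ m) n) x := rfl
      have a2 : Lo m c α ρ φ J x = ∑ n ∈ FF m c J, x ^ ((m : ℝ) + 3 / 4) * (ρ * (bb m c α n * Real.cos (om m c n * √x - φ))) := by
        unfold Lo hS
        rw [Finset.mul_sum, Finset.mul_sum]
      have a3 : R2 = ∑ n ∈ H, x ^ ((m : ℝ) + 3 / 4) * (ρ * (bb m c α n * Real.cos (om m c n * √x - φ))) := by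
        rw [hR2]
        unfold hS
        rw [Finset.mul_sum, Finset.mul_sum]
      have a4 := Finset.sum_sdiff (f := fun n => x ^ ((m : ℝ) + 3 / 4) * (ρ * (bb m c α n * Real.cos (om m c n * √x - φ)))) hsub
      rw [← hH] at a4
      rw [hR1, Finset.sum_sub_distrib, a1, a2, a3, ← a4]
      ring
    have h1 : |R1| ≤ C * B1 * x ^ ((m : ℝ) + 1 / 4) := by
      rw [hR1]
      refine (Finset.abs_sum_le_sum_abs _ _).trans ?_
      calc ∑ n ∈ FF m c Y, |α n * uu c (lamQ m) n ^ (2 * m + 1) * BB m (uu c (lamQ m) n) x -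
            x ^ ((m : ℝ) + 3 / 4) * (ρ * (bb m c α n * Real.cos (om m c n * √x - φ)))|
          ≤ ∑ n ∈ FF m c Y, C * (|α n| * uu c (lamQ m) n ^ ((m : ℝ) - 3 / 4)) * x ^ ((m : ℝ) + 1 / 4) := by
            apply Finset.sum_le_sum
            intro n hn
            unfold FF at hn
            rw [mem_Icc_iff hc hY0.le] at hn
            apply ht n hn.1 x hx0
            have h2 := uu_pos (m := m) hc hn.1
            calc (1 : ℝ) = c * (1 / c) := by field_simp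
              _ ≤ uu c (lamQ m) n * x := by
                have h3 : 1 / c ≤ x := by
                  refine le_trans ?_ hx.1
                  rw [le_div_iff₀ (by norm_num)]
                  calc 1 / c * 2 = 2 / c := by ring
                    _ ≤ U := hUc
                have h4 : 0 ≤ uu c (lamQ m) n := by linarith
                gcongr
        _ = C * (∑ n ∈ FF m c Y, |α n| * uu c (lamQ m) n ^ ((m : ℝ) - 3 / 4)) * x ^ ((m : ℝ) + 1 / 4) := by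
            rw [Finset.mul_sum, Finset.sum_mul]
        _ ≤ _ := by
            have := hB (FF m c Y)
            gcongr
    have h2 : R1 ^ 2 ≤ (C * B1) ^ 2 * (2 * U) ^ (2 * (m : ℝ) + 1 / 2) := by
      rw [← sq_abs]
      have h3 : x ^ ((m : ℝ) + 1 / 4) ≤ (2 * U) ^ ((m : ℝ) + 1 / 4) := Real.rpow_le_rpow hx0.le hx.2 (by positivity)
      calc |R1| ^ 2 ≤ (C * B1 * (2 * U) ^ ((m : ℝ) + 1 / 4)) ^ 2 := by
            have := h1.trans (mul_le_mul_of_nonneg_left h3 (by positivity : 0 ≤ C * B1))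
            gcongr
        _ = _ := by
            rw [mul_pow, ← Real.rpow_natCast ((2 * U) ^ ((m : ℝ) + 1 / 4)), ← Real.rpow_mul (by positivity)]
            congr 2
            push_cast
            ring
    have h3 : R2 ^ 2 = ρ ^ 2 * (x ^ q * hS H (bb m c α) (fun n => 2 * √(uu c (lamQ m) n)) φ x ^ 2) := by
      rw [hR2, mul_pow, mul_pow]
      have : (x ^ ((m : ℝ) + 3 / 4)) ^ 2 = x ^ q := by
        rw [← Real.rpow_natCast, ← Real.rpow_mul hx0.le]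
        congr 1
        rw [hq]
        push_cast
        ring
      rw [this]
      have e2 : hS H (bb m c α) (om m c) φ x = hS H (bb m c α) (fun n => 2 * √(uu c (lamQ m) n)) φ x := rfl
      rw [e2]
      ring
    rw [e1]
    nlinarith [sq_nonneg (R1 - R2)]
  -- integration
  have c1 : Continuous (fun x => (MS m c α Y x - Lo m c α ρ φ J x) ^ 2) :=
    ((MS_cont Y).sub (Lo_cont ρ φ J)).pow 2
  have c2 : Continuous (fun x => x ^ q * hS H (bb m c α) (fun n => 2 * √(uu c (lamQ m) n)) φ x ^ 2) := by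
    have h1 := cont_rpow (q := q) (by positivity)
    have h2 := hS_cont H (bb m c α) (fun n => 2 * √(uu c (lamQ m) n)) φ
    fun_prop
  have hU2 : U / 2 ≤ 2 * U := by linarith
  have hmain : ∫ x in (U / 2)..(2 * U), (MS m c α Y x - Lo m c α ρ φ J x) ^ 2 ≤
      ∫ x in (U / 2)..(2 * U), (2 * (C * B1) ^ 2 * (2 * U) ^ (2 * (m : ℝ) + 1 / 2) +
      2 * ρ ^ 2 * (x ^ q * hS H (bb m c α) (fun n => 2 * √(uu c (lamQ m) n)) φ x ^ 2)) := by
    apply intervalIntegral.integral_mono_on hU2 (c1.intervalIntegrable _ _)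
    · apply Continuous.intervalIntegrable
      exact continuous_const.add (c2.const_mul _)
    · exact hpt
  refine hmain.trans ?_
  rw [intervalIntegral.integral_add (continuous_const.intervalIntegrable _ _) ((c2.const_mul _).intervalIntegrable _ _),
    intervalIntegral.integral_const, intervalIntegral.integral_const_mul]
  have hhigh := high_bound (q := q) (a := U / 2) (b := 2 * U) (Y := Y) (by linarith) (by positivity) hU2 (by linarith)
    (by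
      rw [hY]
      exact Real.rpow_le_rpow hU0.le (by linarith) (by norm_num)) H (bb m c α) (fun n => uu c (lamQ m) n) φ
    (fun n hn => ⟨lt_of_lt_of_le hJ0 (hHmem n hn).2.1, (hHmem n hn).2.2⟩)
  have hcells := cells_bb hD hJ0 H (fun n hn => (hHmem n hn).2.1)
  have hT : ∫ x in (U / 2)..(2 * U), x ^ q * hS H (bb m c α) (fun n => 2 * √(uu c (lamQ m) n)) φ x ^ 2 ≤
      (2 * q + 5) * (2 * U) ^ (q + 1) * (G * (J ^ (-(1 / 4) : ℝ) * M)) := by
    refine hhigh.trans ?_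
    have : 0 < (2 * U) ^ (q + 1) := by positivity
    gcongr
  have e5 : (2 * U) ^ (q + 1) = 2 ^ (2 * (m : ℝ) + 5 / 2) * U ^ (2 * (m : ℝ) + 5 / 2) := by
    rw [← Real.mul_rpow (by norm_num) hU0.le]
    congr 1
    rw [hq]; ring
  have e6 : (2 * U) ^ (2 * (m : ℝ) + 1 / 2) * (2 * U) = 2 ^ (2 * (m : ℝ) + 3 / 2) * U ^ (2 * (m : ℝ) + 3 / 2) := by
    rw [← Real.mul_rpow (by norm_num) hU0.le, ← Real.rpow_add_one (by positivity)]
    congr 1
    ring
  have hA : (2 * U - U / 2) • (2 * (C * B1) ^ 2 * (2 * U) ^ (2 * (m : ℝ) + 1 / 2)) ≤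
      2 * (C * B1) ^ 2 * (2 ^ (2 * (m : ℝ) + 3 / 2) * U ^ (2 * (m : ℝ) + 3 / 2)) := by
    rw [smul_eq_mul, ← e6]
    have : 2 * U - U / 2 ≤ 2 * U := by linarith
    calc (2 * U - U / 2) * (2 * (C * B1) ^ 2 * (2 * U) ^ (2 * (m : ℝ) + 1 / 2))
        ≤ (2 * U) * (2 * (C * B1) ^ 2 * (2 * U) ^ (2 * (m : ℝ) + 1 / 2)) := by gcongr
      _ = _ := by ring
  have hJn : 0 ≤ J ^ (-(1 / 4) : ℝ) := by positivity
  have hUn1 : 0 ≤ U ^ (2 * (m : ℝ) + 3 / 2) := by positivity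
  have hUn2 : 0 ≤ U ^ (2 * (m : ℝ) + 5 / 2) := by positivity
  have hBn : 2 * ρ ^ 2 * (∫ x in (U / 2)..(2 * U), x ^ q * hS H (bb m c α) (fun n => 2 * √(uu c (lamQ m) n)) φ x ^ 2) ≤
      2 * ρ ^ 2 * ((2 * q + 5) * 2 ^ (2 * (m : ℝ) + 5 / 2) * (G * M)) * (U ^ (2 * (m : ℝ) + 5 / 2) * J ^ (-(1 / 4) : ℝ)) := by
    rw [e5] at hT
    calc _ ≤ 2 * ρ ^ 2 * ((2 * q + 5) * (2 ^ (2 * (m : ℝ) + 5 / 2) * U ^ (2 * (m : ℝ) + 5 / 2)) * (G * (J ^ (-(1 / 4) : ℝ) * M))) := by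
          gcongr
      _ = _ := by ring
  have hp1 : 0 ≤ 2 * (C * B1) ^ 2 * 2 ^ (2 * (m : ℝ) + 3 / 2) := by positivity
  have hp2 : 0 ≤ 2 * ρ ^ 2 * ((2 * q + 5) * 2 ^ (2 * (m : ℝ) + 5 / 2) * (G * M)) := by positivity
  nlinarith [mul_nonneg hp1 (mul_nonneg hUn2 hJn), mul_nonneg hp2 hUn1]

end Pool.Agent.H295.SM2
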