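import Mathlib
import Pool.Graph.R_pool_sql_team_seeded_64922ed1.X88.BesselB

set_option autoImplicit false

/-!
# TaskSM2, part 1: Bessel function asymptotics from the ODE
-/

open MeasureTheory Set Filter Topology

namespace Pool.Agent.H295.SM2

open Pool.Agent.X88.Bessel

lemma lim_of_deriv {f f' : ℝ → ℝ} {K : ℝ} (hd : ∀ x : ℝ, 0 < x → HasDerivAt f (f' x) x)
    (hc : ContinuousOn f' (Ioi 0)) (hb : ∀ x : ℝ, 1 ≤ x → |f' x| ≤ K / x ^ 2) :
    ∃ a : ℝ, Tendsto f atTop (𝓝 a) ∧ ∀ s : ℝ, 1 ≤ s → |f s - a| ≤ K / s := by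
  have hint : ∀ s : ℝ, 1 ≤ s → IntegrableOn f' (Ioi s) := by
    intro s hs
    have h1 : IntegrableOn (fun x : ℝ => K * x ^ (-2 : ℝ)) (Ioi s) :=
      (integrableOn_Ioi_rpow_of_lt (by norm_num) (by linarith)).const_mul K
    refine Integrable.mono' h1 ?_ ?_
    · apply (hc.mono (Ioi_subset_Ioi (by linarith))).aestronglyMeasurable measurableSet_Ioi
    · refine (ae_restrict_mem measurableSet_Ioi).mono ?_
      intro x hx
      have hx1 : 1 ≤ x := hs.trans (le_of_lt hx)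
      rw [Real.norm_eq_abs]
      refine (hb x hx1).trans ?_
      rw [Real.rpow_neg (by linarith), Real.rpow_ofNat, div_eq_mul_inv]
  refine ⟨limUnder atTop f, tendsto_limUnder_of_hasDerivAt_of_integrableOn_Ioi (a := 1)
    (fun x hx => hd x (lt_trans one_pos hx)) (hint 1 le_rfl), ?_⟩
  intro s hs
  have ht := tendsto_limUnder_of_hasDerivAt_of_integrableOn_Ioi (a := 1)
    (fun x hx => hd x (lt_trans one_pos hx)) (hint 1 le_rfl)
  have h2 := integral_Ioi_of_hasDerivAt_of_tendsto' (a := s)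
    (fun x hx => hd x (lt_of_lt_of_le (by linarith) (show s ≤ x from hx))) (hint s hs) ht
  rw [abs_sub_comm, ← h2, ← Real.norm_eq_abs]
  have h3 : ∫ x in Ioi s, K * x ^ (-2 : ℝ) = K / s := by
    rw [integral_const_mul, integral_Ioi_rpow_of_lt (by norm_num) (by linarith)]
    norm_num
    rw [Real.rpow_neg_one, div_eq_mul_inv]
  rw [← h3]
  apply norm_integral_le_of_norm_le ((integrableOn_Ioi_rpow_of_lt (by norm_num) (by linarith)).const_mul K)
  refine (ae_restrict_mem measurableSet_Ioi).mono ?_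
  intro x hx
  have hx1 : 1 ≤ x := hs.trans (le_of_lt hx)
  rw [Real.norm_eq_abs]
  refine (hb x hx1).trans ?_
  rw [Real.rpow_neg (by linarith), Real.rpow_ofNat, div_eq_mul_inv]

/-- `g s = s^(μ+1/2) A_μ(s²/4)` -/
noncomputable def g0 (μ s : ℝ) : ℝ := s ^ (μ + 1 / 2) * A μ (s ^ 2 / 4)

/-- its derivative -/
noncomputable def g1 (μ s : ℝ) : ℝ :=
  (μ + 1 / 2) * s ^ (μ - 1 / 2) * A μ (s ^ 2 / 4) - (1 / 2) * s ^ (μ + 3 / 2) * A (μ + 1) (s ^ 2 / 4)

lemma A_sq_der {μ : ℝ} (hμ : -1 < μ) (s : ℝ) :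
    HasDerivAt (fun s => A μ (s ^ 2 / 4)) (-A (μ + 1) (s ^ 2 / 4) * (s / 2)) s := by
  have h1 : HasDerivAt (fun s : ℝ => s ^ 2 / 4) (s / 2) s := by
    have := ((hasDerivAt_id s).pow 2).div_const 4
    refine this.congr_deriv ?_
    simp
    ring
  exact HasDerivAt.comp (h₂ := A μ) (h := fun s : ℝ => s ^ 2 / 4) s (A_der hμ (s ^ 2 / 4)) h1

lemma g0_der {μ : ℝ} (hμ : 1 / 2 ≤ μ) {s : ℝ} (hs : 0 < s) : HasDerivAt (g0 μ) (g1 μ s) s := by
  have h1 := (Real.hasDerivAt_rpow_const (x := s) (p := μ + 1 / 2) (Or.inl hs.ne')).mul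
    (A_sq_der (μ := μ) (by linarith) s)
  refine h1.congr_deriv ?_
  unfold g1
  have e1 : s ^ (μ + 3 / 2) = s ^ (μ + 1 / 2) * s := by
    rw [show μ + 3 / 2 = (μ + 1 / 2) + 1 by ring, Real.rpow_add_one hs.ne']
  rw [e1, show μ + 1 / 2 - 1 = μ - 1 / 2 by ring]
  ring

lemma g1_der {μ : ℝ} (hμ : 1 / 2 ≤ μ) {s : ℝ} (hs : 0 < s) :
    HasDerivAt (g1 μ) (((μ ^ 2 - 1 / 4) / s ^ 2 - 1) * g0 μ s) s := by
  have h1 := ((Real.hasDerivAt_rpow_const (x := s) (p := μ - 1 / 2) (Or.inl hs.ne')).const_mul (μ + 1 / 2)).mul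
    (A_sq_der (μ := μ) (by linarith) s)
  have h2 := ((Real.hasDerivAt_rpow_const (x := s) (p := μ + 3 / 2) (Or.inl hs.ne')).const_mul (1 / 2)).mul
    (A_sq_der (μ := μ + 1) (by linarith) s)
  refine (h1.sub h2).congr_deriv ?_
  unfold g0
  have hr := A_rec (ν := μ + 1) (by linarith) (s ^ 2 / 4)
  rw [show μ + 1 - 1 = μ by ring] at hr
  have e1 : s ^ (μ + 3 / 2) = s ^ (μ + 1 / 2) * s := by
    rw [show μ + 3 / 2 = (μ + 1 / 2) + 1 by ring, Real.rpow_add_one hs.ne']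
  have e2 : s ^ (μ + 1 / 2) = s ^ (μ - 1 / 2) * s := by
    rw [show μ + 1 / 2 = (μ - 1 / 2) + 1 by ring, Real.rpow_add_one hs.ne']
  have e3 : s ^ (μ - 1 / 2) = s ^ (μ - 1 / 2 - 1) * s := by
    rw [← Real.rpow_add_one hs.ne']
    congr 1
    ring
  rw [show μ + 3 / 2 - 1 = μ + 1 / 2 by ring, e1, e2, e3]
  set X := s ^ (μ - 1 / 2 - 1)
  set A0 := A μ (s ^ 2 / 4)
  set A1 := A (μ + 1) (s ^ 2 / 4)
  set A2 := A (μ + 1 + 1) (s ^ 2 / 4)
  have hs0 : s ≠ 0 := hs.ne'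
  rw [hr]
  field_simp
  ring

lemma g0_cont {μ : ℝ} (hμ : 1 / 2 ≤ μ) : ContinuousOn (g0 μ) (Ioi 0) := fun s hs =>
  (g0_der hμ hs).continuousAt.continuousWithinAt

/-- asymptotics of `g0` -/
lemma g0_asymp {μ : ℝ} (hμ : 1 / 2 ≤ μ) : ∃ a b C : ℝ, 0 < a ^ 2 + b ^ 2 ∧ 0 ≤ C ∧ ∀ s : ℝ, 1 ≤ s →
    |g0 μ s - (a * Real.cos s + b * Real.sin s)| ≤ C / s := by
  set κ : ℝ := μ ^ 2 - 1 / 4 with hκ
  have hκ0 : 0 ≤ κ := by nlinarith
  -- energy
  set E : ℝ → ℝ := fun s => g0 μ s ^ 2 + g1 μ s ^ 2 with hE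
  have hEd : ∀ s : ℝ, 0 < s → HasDerivAt E (2 * (κ / s ^ 2) * g0 μ s * g1 μ s) s := by
    intro s hs
    have := ((g0_der hμ hs).pow 2).add ((g1_der hμ hs).pow 2)
    refine this.congr_deriv ?_
    simp
    ring
  have hE0 : ∀ s, 0 ≤ E s := fun _ => by simp only [hE]; positivity
  have hbd : ∀ s : ℝ, 0 < s → |2 * (κ / s ^ 2) * g0 μ s * g1 μ s| ≤ κ / s ^ 2 * E s := by
    intro s hs
    have hq : 0 ≤ κ / s ^ 2 := by positivity
    rw [show 2 * (κ / s ^ 2) * g0 μ s * g1 μ s = (κ / s ^ 2) * (2 * g0 μ s * g1 μ s) by ring, abs_mul, abs_of_nonneg hq]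
    apply mul_le_mul_of_nonneg_left _ hq
    rw [abs_le]
    simp only [hE]
    constructor
    · nlinarith [sq_nonneg (g0 μ s + g1 μ s)]
    · nlinarith [sq_nonneg (g0 μ s - g1 μ s)]
  have hexpd : ∀ (σ s : ℝ), 0 < s → HasDerivAt (fun s => Real.exp (σ / s)) (Real.exp (σ / s) * (-(σ / s ^ 2))) s := by
    intro σ s hs
    have h1 : HasDerivAt (fun s : ℝ => σ / s) (-(σ / s ^ 2)) s := by
      have := (hasDerivAt_inv hs.ne').const_mul σ
      refine (this.congr_deriv ?_)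
      ring
    exact h1.exp
  have hup : AntitoneOn (fun s => E s * Real.exp (κ / s)) (Ici 1) := by
    apply antitoneOn_of_hasDerivWithinAt_nonpos (convex_Ici 1)
      (f' := fun s => (2 * (κ / s ^ 2) * g0 μ s * g1 μ s) * Real.exp (κ / s) + E s * (Real.exp (κ / s) * (-(κ / s ^ 2))))
    · intro s hs
      have hs0 : 0 < s := lt_of_lt_of_le one_pos hs
      exact ((hEd s hs0).mul (hexpd κ s hs0)).continuousAt.continuousWithinAt
    · intro s hs
      rw [interior_Ici] at hs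
      have hs0 : 0 < s := lt_trans one_pos hs
      exact ((hEd s hs0).mul (hexpd κ s hs0)).hasDerivWithinAt
    · intro s hs
      rw [interior_Ici] at hs
      have hs0 : 0 < s := lt_trans one_pos hs
      have := (abs_le.1 (hbd s hs0)).2
      have he := Real.exp_pos (κ / s)
      nlinarith
  have hlo : MonotoneOn (fun s => E s * Real.exp (-κ / s)) (Ici 1) := by
    apply monotoneOn_of_hasDerivWithinAt_nonneg (convex_Ici 1)
      (f' := fun s => (2 * (κ / s ^ 2) * g0 μ s * g1 μ s) * Real.exp (-κ / s) + E s * (Real.exp (-κ / s) * (-(-κ / s ^ 2))))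
    · intro s hs
      have hs0 : 0 < s := lt_of_lt_of_le one_pos hs
      exact ((hEd s hs0).mul (hexpd (-κ) s hs0)).continuousAt.continuousWithinAt
    · intro s hs
      rw [interior_Ici] at hs
      have hs0 : 0 < s := lt_trans one_pos hs
      exact ((hEd s hs0).mul (hexpd (-κ) s hs0)).hasDerivWithinAt
    · intro s hs
      rw [interior_Ici] at hs
      have hs0 : 0 < s := lt_trans one_pos hs
      have := (abs_le.1 (hbd s hs0)).1
      have he := Real.exp_pos (-κ / s)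
      have e1 : -κ / s ^ 2 = -(κ / s ^ 2) := by ring
      rw [e1, neg_neg]
      nlinarith
  set B : ℝ := E 1 * Real.exp κ with hB
  have hEle : ∀ s : ℝ, 1 ≤ s → E s ≤ B := by
    intro s hs
    have h1 := hup (Set.mem_Ici.2 (le_refl (1:ℝ))) (Set.mem_Ici.2 hs) hs
    simp only [div_one] at h1
    have h2 : 1 ≤ Real.exp (κ / s) := Real.one_le_exp (by positivity)
    calc E s = E s * 1 := (mul_one _).symm
      _ ≤ E s * Real.exp (κ / s) := mul_le_mul_of_nonneg_left h2 (hE0 s)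
      _ ≤ B := h1
  have hEge : ∀ s : ℝ, 1 ≤ s → E 1 * Real.exp (-κ) ≤ E s := by
    intro s hs
    have h1 := hlo (Set.mem_Ici.2 (le_refl (1:ℝ))) (Set.mem_Ici.2 hs) hs
    simp only [div_one] at h1
    have h2 : Real.exp (-κ / s) ≤ 1 := by
      rw [Real.exp_le_one_iff]
      rw [neg_div]
      have : 0 ≤ κ / s := by positivity
      linarith
    calc E 1 * Real.exp (-κ) ≤ E s * Real.exp (-κ / s) := h1
      _ ≤ E s * 1 := mul_le_mul_of_nonneg_left h2 (hE0 s)
      _ = E s := mul_one _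
  have hE1 : 0 < E 1 := by
    have hA : 0 < A μ (1 ^ 2 / 4) := A_pos_small (by linarith) (by norm_num) (by linarith)
    have : 0 < g0 μ 1 := by unfold g0; rw [Real.one_rpow, one_mul]; exact hA
    simp only [hE]
    positivity
  -- amplitudes
  set al : ℝ → ℝ := fun s => g0 μ s * Real.cos s - g1 μ s * Real.sin s with hal
  set be : ℝ → ℝ := fun s => g0 μ s * Real.sin s + g1 μ s * Real.cos s with hbe
  have hald : ∀ s : ℝ, 0 < s → HasDerivAt al (-(κ / s ^ 2 * g0 μ s * Real.sin s)) s := by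
    intro s hs
    have := ((g0_der hμ hs).mul (Real.hasDerivAt_cos s)).sub ((g1_der hμ hs).mul (Real.hasDerivAt_sin s))
    refine this.congr_deriv ?_
    rw [← hκ]
    ring
  have hbed : ∀ s : ℝ, 0 < s → HasDerivAt be (κ / s ^ 2 * g0 μ s * Real.cos s) s := by
    intro s hs
    have := ((g0_der hμ hs).mul (Real.hasDerivAt_sin s)).add ((g1_der hμ hs).mul (Real.hasDerivAt_cos s))
    refine this.congr_deriv ?_
    rw [← hκ]
    ring
  have hg0c := g0_cont hμ
  have hg0b : ∀ s : ℝ, 1 ≤ s → |g0 μ s| ≤ √B := by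
    intro s hs
    apply Real.abs_le_sqrt
    refine le_trans ?_ (hEle s hs)
    simp only [hE]
    nlinarith [sq_nonneg (g1 μ s)]
  have hqc : ContinuousOn (fun s : ℝ => κ / s ^ 2) (Ioi 0) := by
    apply ContinuousOn.div continuousOn_const (by fun_prop)
    intro x hx
    have : (0:ℝ) < x := hx
    positivity
  obtain ⟨a, ha1, ha2⟩ := lim_of_deriv (K := κ * √B) hald
    (((hqc.mul hg0c).mul Real.continuous_sin.continuousOn).neg) (by
      intro s hs
      have h1 := hg0b s hs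
      have hs0 : 0 < s := by linarith
      rw [abs_neg, abs_mul, abs_mul, abs_of_nonneg (by positivity : 0 ≤ κ / s ^ 2)]
      have h2 := Real.abs_sin_le_one s
      calc κ / s ^ 2 * |g0 μ s| * |Real.sin s| ≤ κ / s ^ 2 * √B * 1 := by gcongr
        _ = _ := by ring)
  obtain ⟨b, hb1, hb2⟩ := lim_of_deriv (K := κ * √B) hbed
    (((hqc.mul hg0c).mul Real.continuous_cos.continuousOn)) (by
      intro s hs
      have h1 := hg0b s hs
      have hs0 : 0 < s := by linarith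
      rw [abs_mul, abs_mul, abs_of_nonneg (by positivity : 0 ≤ κ / s ^ 2)]
      have h2 := Real.abs_cos_le_one s
      calc κ / s ^ 2 * |g0 μ s| * |Real.cos s| ≤ κ / s ^ 2 * √B * 1 := by gcongr
        _ = _ := by ring)
  refine ⟨a, b, 2 * (κ * √B), ?_, by positivity, ?_⟩
  · have h1 : Tendsto (fun s => al s ^ 2 + be s ^ 2) atTop (𝓝 (a ^ 2 + b ^ 2)) := (ha1.pow 2).add (hb1.pow 2)
    have h2 : ∀ᶠ s in atTop, E 1 * Real.exp (-κ) ≤ al s ^ 2 + be s ^ 2 := by
      filter_upwards [eventually_ge_atTop 1] with s hs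
      refine (hEge s hs).trans (le_of_eq ?_)
      simp only [hE, hal, hbe]
      have := Real.sin_sq_add_cos_sq s
      linear_combination (-(g0 μ s ^ 2 + g1 μ s ^ 2)) * this
    have h3 := ge_of_tendsto h1 h2
    have : 0 < E 1 * Real.exp (-κ) := by positivity
    linarith
  · intro s hs
    have hs0 : 0 < s := by linarith
    have h1 := ha2 s hs
    have h2 := hb2 s hs
    have e1 : g0 μ s - (a * Real.cos s + b * Real.sin s) = (al s - a) * Real.cos s + (be s - b) * Real.sin s := by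
      simp only [hal, hbe]
      have := Real.sin_sq_add_cos_sq s
      linear_combination (-(g0 μ s)) * this
    rw [e1]
    calc |(al s - a) * Real.cos s + (be s - b) * Real.sin s| ≤ |al s - a| * |Real.cos s| + |be s - b| * |Real.sin s| := by
          rw [← abs_mul, ← abs_mul]; exact abs_add_le _ _
      _ ≤ κ * √B / s * 1 + κ * √B / s * 1 := by
          have := Real.abs_cos_le_one s
          have := Real.abs_sin_le_one s
          gcongr
      _ = _ := by ring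

/-- asymptotics of the Bessel type function -/
lemma bes {μ : ℝ} (hμ : 1 / 2 ≤ μ) : ∃ ρ φ C : ℝ, 0 < ρ ∧ 0 ≤ C ∧ ∀ t : ℝ, 1 ≤ t →
    |t ^ μ * A μ t - t ^ (μ / 2 - 1 / 4) * (ρ * Real.cos (2 * √t - φ))| ≤ C * t ^ (μ / 2 - 3 / 4) := by
  obtain ⟨a, b, C, hab, hC, h⟩ := g0_asymp hμ
  set z : ℂ := ⟨a, b⟩ with hz
  have hz0 : z ≠ 0 := by
    intro h0
    have h1 : z.re = 0 := by rw [h0]; rfl
    have h2 : z.im = 0 := by rw [h0]; rfl
    have h1' : a = 0 := h1
    have h2' : b = 0 := h2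
    rw [h1', h2'] at hab
    norm_num at hab
  have hzn : 0 < ‖z‖ := norm_pos_iff.2 hz0
  set k : ℝ := (2 : ℝ) ^ (-(μ + 1 / 2)) with hk
  have hk0 : 0 < k := by positivity
  refine ⟨k * ‖z‖, z.arg, k * C / 2, by positivity, by positivity, ?_⟩
  intro t ht
  have ht0 : 0 < t := by linarith
  have hst : 1 ≤ √t := Real.one_le_sqrt.2 ht
  have hst0 : 0 < √t := by linarith
  have h1 := h (2 * √t) (by linarith)
  have e1 : a = ‖z‖ * Real.cos z.arg := (Complex.norm_mul_cos_arg z).symm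
  have e2 : b = ‖z‖ * Real.sin z.arg := (Complex.norm_mul_sin_arg z).symm
  have e3 : a * Real.cos (2 * √t) + b * Real.sin (2 * √t) = ‖z‖ * Real.cos (2 * √t - z.arg) := by
    rw [Real.cos_sub]
    conv_lhs => rw [e1, e2]
    ring
  have e4 : g0 μ (2 * √t) = 2 ^ (μ + 1 / 2) * (t ^ (μ / 2 + 1 / 4) * A μ t) := by
    unfold g0
    have e5 : (2 * √t) ^ 2 / 4 = t := by
      rw [mul_pow, Real.sq_sqrt ht0.le]; ring
    rw [e5, Real.mul_rpow (by norm_num) hst0.le, Real.sqrt_eq_rpow, ← Real.rpow_mul ht0.le]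
    rw [show 1 / 2 * (μ + 1 / 2) = μ / 2 + 1 / 4 by ring]
    ring
  have hkk : k * 2 ^ (μ + 1 / 2) = 1 := by
    rw [hk, ← Real.rpow_add (by norm_num)]
    simp
  have e6 : t ^ μ * A μ t = t ^ (μ / 2 - 1 / 4) * (k * g0 μ (2 * √t)) := by
    rw [e4, ← mul_assoc k, hkk, one_mul, ← mul_assoc, ← Real.rpow_add ht0]
    congr 2
    ring
  have e7 : t ^ μ * A μ t - t ^ (μ / 2 - 1 / 4) * (k * ‖z‖ * Real.cos (2 * √t - z.arg)) =
      t ^ (μ / 2 - 1 / 4) * (k * (g0 μ (2 * √t) - (a * Real.cos (2 * √t) + b * Real.sin (2 * √t)))) := by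
    rw [e6, e3]; ring
  rw [e7, abs_mul, abs_mul, abs_of_pos hk0, abs_of_pos (by positivity)]
  calc t ^ (μ / 2 - 1 / 4) * (k * |g0 μ (2 * √t) - (a * Real.cos (2 * √t) + b * Real.sin (2 * √t))|)
      ≤ t ^ (μ / 2 - 1 / 4) * (k * (C / (2 * √t))) := by gcongr
    _ = k * C / 2 * (t ^ (μ / 2 - 1 / 4) * (√t)⁻¹) := by
        field_simp
    _ = k * C / 2 * t ^ (μ / 2 - 3 / 4) := by
        rw [Real.sqrt_eq_rpow, ← Real.rpow_neg ht0.le, ← Real.rpow_add ht0]
        congr 2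
        ring

end Pool.Agent.H295.SM2
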