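import Mathlib

set_option autoImplicit false

/-!
# TaskSM2, part 2: oscillatory integrals and mean squares of sums with frequencies in `√u`
-/

open MeasureTheory Set Filter Topology

namespace Pool.Agent.H295.SM2

/-- `∫_a^b u^q cos(ω √u + φ) du` -/
noncomputable def JJ (q a b ω φ : ℝ) : ℝ := ∫ u in a..b, u ^ q * Real.cos (ω * √u + φ)

lemma cont_rpow {q : ℝ} (hq : 0 ≤ q) : Continuous (fun u : ℝ => u ^ q) :=
  Real.continuous_rpow_const hq

lemma int_triv {q a b : ℝ} (hq : 0 ≤ q) (ha : 0 < a) (hab : a ≤ b) {f : ℝ → ℝ} {K : ℝ}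
    (hK : 0 ≤ K) (hb : ∀ u, |f u| ≤ K) : |∫ u in a..b, u ^ q * f u| ≤ K * b ^ (q + 1) := by
  have hb0 : 0 < b := lt_of_lt_of_le ha hab
  have h1 : |∫ u in a..b, u ^ q * f u| ≤ (K * b ^ q) * |b - a| := by
    rw [← Real.norm_eq_abs]
    apply intervalIntegral.norm_integral_le_of_norm_le_const
    intro u hu
    rw [uIoc_of_le hab] at hu
    have hu0 : 0 < u := lt_trans ha hu.1
    rw [norm_mul, Real.norm_of_nonneg (by positivity), Real.norm_eq_abs, mul_comm]
    have h2 : u ^ q ≤ b ^ q := Real.rpow_le_rpow hu0.le hu.2 hq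
    have h3 := hb u
    gcongr
  refine h1.trans ?_
  rw [abs_of_nonneg (by linarith), Real.rpow_add_one hb0.ne', mul_assoc]
  have : b - a ≤ b := by linarith
  gcongr

lemma JJ_triv {q a b : ℝ} (hq : 0 ≤ q) (ha : 0 < a) (hab : a ≤ b) (ω φ : ℝ) : |JJ q a b ω φ| ≤ b ^ (q + 1) := by
  have := int_triv hq ha hab (f := fun u => Real.cos (ω * √u + φ)) (K := 1) (by norm_num)
    (fun u => Real.abs_cos_le_one _)
  rw [one_mul] at this
  exact this

lemma JJ_osc {q a b : ℝ} (hq : 1 / 2 ≤ q) (ha : 0 < a) (hab : a ≤ b) {ω : ℝ} (hω : ω ≠ 0) (φ : ℝ) :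
    |JJ q a b ω φ| ≤ (2 * q + 5) / |ω| * b ^ (q + 1 / 2) := by
  have hb0 : 0 < b := lt_of_lt_of_le ha hab
  have hω' : 0 < |ω| := abs_pos.2 hω
  set F : ℝ → ℝ := fun u => 2 / ω * u ^ (q + 1 / 2) * Real.sin (ω * √u + φ) with hF
  have hd : ∀ u ∈ uIcc a b, HasDerivAt F (u ^ q * Real.cos (ω * √u + φ) +
      (2 / ω * (q + 1 / 2)) * (u ^ (q - 1 / 2) * Real.sin (ω * √u + φ))) u := by
    intro u hu
    rw [uIcc_of_le hab] at hu
    have hu0 : 0 < u := lt_of_lt_of_le ha hu.1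
    have h1 := (Real.hasDerivAt_rpow_const (x := u) (p := q + 1 / 2) (Or.inl hu0.ne')).const_mul (2 / ω)
    have h2 : HasDerivAt (fun u => Real.sin (ω * √u + φ)) (Real.cos (ω * √u + φ) * (ω * (1 / (2 * √u)))) u :=
      ((((Real.hasDerivAt_sqrt hu0.ne').const_mul ω).add_const φ).sin)
    refine (h1.mul h2).congr_deriv ?_
    have e1 : u ^ (q + 1 / 2) = u ^ q * √u := by
      rw [Real.sqrt_eq_rpow, ← Real.rpow_add hu0]
    have hs : 0 < √u := Real.sqrt_pos.2 hu0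
    rw [show q + 1 / 2 - 1 = q - 1 / 2 by ring, e1]
    field_simp
    ring
  have c1 : Continuous (fun u : ℝ => u ^ q * Real.cos (ω * √u + φ)) := by
    have := cont_rpow (q := q) (by linarith)
    fun_prop
  have c2 : Continuous (fun u : ℝ => u ^ (q - 1 / 2) * Real.sin (ω * √u + φ)) := by
    have := cont_rpow (q := q - 1 / 2) (by linarith)
    fun_prop
  have h := intervalIntegral.integral_eq_sub_of_hasDerivAt hd
    ((c1.add (c2.const_mul _)).intervalIntegrable _ _)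
  rw [intervalIntegral.integral_add (c1.intervalIntegrable _ _) ((c2.const_mul _).intervalIntegrable _ _),
    intervalIntegral.integral_const_mul] at h
  have e2 : JJ q a b ω φ = F b - F a - (2 / ω * (q + 1 / 2)) * ∫ u in a..b, u ^ (q - 1 / 2) * Real.sin (ω * √u + φ) := by
    unfold JJ
    linarith
  have h3 := int_triv (q := q - 1 / 2) (by linarith) ha hab (f := fun u => Real.sin (ω * √u + φ))
    (K := 1) (by norm_num) (fun u => Real.abs_sin_le_one _)
  rw [one_mul, show q - 1 / 2 + 1 = q + 1 / 2 by ring] at h3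
  have h4 : ∀ u, 0 < u → u ≤ b → |F u| ≤ 2 / |ω| * b ^ (q + 1 / 2) := by
    intro u hu hub
    simp only [hF]
    rw [abs_mul, abs_mul, abs_div, abs_of_pos (by positivity : (0:ℝ) < u ^ (q + 1 / 2))]
    have h5 : u ^ (q + 1 / 2) ≤ b ^ (q + 1 / 2) := Real.rpow_le_rpow hu.le hub (by linarith)
    have h6 := Real.abs_sin_le_one (ω * √u + φ)
    calc |2| / |ω| * u ^ (q + 1 / 2) * |Real.sin (ω * √u + φ)| ≤ |2| / |ω| * b ^ (q + 1 / 2) * 1 := by gcongr
      _ = _ := by norm_num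
  rw [e2]
  have h7 := h4 b hb0 le_rfl
  have h8 := h4 a ha hab
  calc |F b - F a - (2 / ω * (q + 1 / 2)) * ∫ u in a..b, u ^ (q - 1 / 2) * Real.sin (ω * √u + φ)|
      ≤ |F b - F a| + |(2 / ω * (q + 1 / 2)) * ∫ u in a..b, u ^ (q - 1 / 2) * Real.sin (ω * √u + φ)| := abs_sub _ _
    _ ≤ (|F b| + |F a|) + (2 / |ω| * (q + 1 / 2)) * b ^ (q + 1 / 2) := by
        rw [abs_mul, abs_mul, abs_div, abs_of_pos (by linarith : 0 < q + 1 / 2), abs_two]
        have := abs_sub (F b) (F a)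
        gcongr
    _ ≤ (2 / |ω| * b ^ (q + 1 / 2) + 2 / |ω| * b ^ (q + 1 / 2)) + (2 / |ω| * (q + 1 / 2)) * b ^ (q + 1 / 2) := by
        gcongr
    _ = _ := by
        field_simp
        ring

/-- the trigonometric sum -/
noncomputable def hS (S : Finset ℕ) (β ω : ℕ → ℝ) (φ x : ℝ) : ℝ := ∑ n ∈ S, β n * Real.cos (ω n * √x - φ)

lemma hS_cont (S : Finset ℕ) (β ω : ℕ → ℝ) (φ : ℝ) : Continuous (hS S β ω φ) := by
  unfold hS
  fun_prop

lemma hS_sq (S : Finset ℕ) (β ω : ℕ → ℝ) (φ x : ℝ) : hS S β ω φ x ^ 2 =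
    ∑ n ∈ S, ∑ k ∈ S, β n * β k * (1 / 2) * (Real.cos ((ω n - ω k) * √x + 0) + Real.cos ((ω n + ω k) * √x + (-2 * φ))) := by
  unfold hS
  rw [sq, Finset.sum_mul_sum]
  apply Finset.sum_congr rfl
  intro n _
  apply Finset.sum_congr rfl
  intro k _
  have h := Real.cos_add (ω n * √x - φ) (ω k * √x - φ)
  have h' := Real.cos_sub (ω n * √x - φ) (ω k * √x - φ)
  rw [show (ω n - ω k) * √x + 0 = (ω n * √x - φ) - (ω k * √x - φ) by ring,
    show (ω n + ω k) * √x + (-2 * φ) = (ω n * √x - φ) + (ω k * √x - φ) by ring, h, h']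
  ring

lemma hS_int {q a b : ℝ} (hq : 0 ≤ q) (S : Finset ℕ) (β ω : ℕ → ℝ) (φ : ℝ) :
    ∫ u in a..b, u ^ q * hS S β ω φ u ^ 2 =
    ∑ n ∈ S, ∑ k ∈ S, β n * β k * (1 / 2) * (JJ q a b (ω n - ω k) 0 + JJ q a b (ω n + ω k) (-2 * φ)) := by
  have hc := cont_rpow hq
  have e1 : ∀ u : ℝ, u ^ q * hS S β ω φ u ^ 2 = ∑ n ∈ S, ∑ k ∈ S, β n * β k * (1 / 2) *
      (u ^ q * Real.cos ((ω n - ω k) * √u + 0) + u ^ q * Real.cos ((ω n + ω k) * √u + (-2 * φ))) := by
    intro u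
    rw [hS_sq, Finset.mul_sum]
    apply Finset.sum_congr rfl
    intro n _
    rw [Finset.mul_sum]
    apply Finset.sum_congr rfl
    intro k _
    ring
  simp_rw [e1]
  rw [intervalIntegral.integral_finsetSum]
  · apply Finset.sum_congr rfl
    intro n _
    rw [intervalIntegral.integral_finsetSum]
    · apply Finset.sum_congr rfl
      intro k _
      rw [intervalIntegral.integral_const_mul, intervalIntegral.integral_add]
      · rfl
      · apply Continuous.intervalIntegrable; fun_prop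
      · apply Continuous.intervalIntegrable; fun_prop
    · intro k _
      apply Continuous.intervalIntegrable; fun_prop
  · intro n _
    apply Continuous.intervalIntegrable
    fun_prop

/-- diagonal and error: low frequencies -/
lemma low_asymp {q a b : ℝ} (hq : 1 / 2 ≤ q) (ha : 0 < a) (hab : a ≤ b) (S : Finset ℕ) (β ω : ℕ → ℝ) (φ D : ℝ)
    (hD : 0 < D) (h1 : ∀ n ∈ S, ∀ k ∈ S, 1 / D ≤ |ω n + ω k|) (h2 : ∀ n ∈ S, ∀ k ∈ S, n ≠ k → 1 / D ≤ |ω n - ω k|) :
    |(∫ u in a..b, u ^ q * hS S β ω φ u ^ 2) - (1 / 2) * (∑ n ∈ S, β n ^ 2) * ∫ u in a..b, u ^ q| ≤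
      (2 * q + 5) * D * b ^ (q + 1 / 2) * (∑ n ∈ S, |β n|) ^ 2 := by
  have hb0 : 0 < b := lt_of_lt_of_le ha hab
  rw [hS_int (by linarith)]
  have hdiag : (1 / 2) * (∑ n ∈ S, β n ^ 2) * ∫ u in a..b, u ^ q =
      ∑ n ∈ S, ∑ k ∈ S, if n = k then β n * β k * (1 / 2) * (∫ u in a..b, u ^ q) else 0 := by
    rw [Finset.mul_sum, Finset.sum_mul]
    apply Finset.sum_congr rfl
    intro n hn
    rw [Finset.sum_ite_eq, if_pos hn]
    ring
  rw [hdiag, ← Finset.sum_sub_distrib, sq, Finset.sum_mul_sum, Finset.mul_sum]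
  refine (Finset.abs_sum_le_sum_abs _ _).trans ?_
  apply Finset.sum_le_sum
  intro n hn
  rw [← Finset.sum_sub_distrib, Finset.mul_sum]
  refine (Finset.abs_sum_le_sum_abs _ _).trans ?_
  apply Finset.sum_le_sum
  intro k hk
  have hosc : ∀ w ψ : ℝ, 1 / D ≤ |w| → |JJ q a b w ψ| ≤ (2 * q + 5) * D * b ^ (q + 1 / 2) := by
    intro w ψ hw
    have hw0 : 0 < |w| := lt_of_lt_of_le (by positivity) hw
    refine (JJ_osc hq ha hab (abs_pos.1 hw0) ψ).trans ?_
    have h3 : 1 / |w| ≤ D := by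
      rw [div_le_iff₀ hw0]
      rw [div_le_iff₀ hD] at hw
      linarith
    have h4 : (2 * q + 5) / |w| = (2 * q + 5) * (1 / |w|) := by ring
    rw [h4]
    gcongr
  have hp := hosc _ (-2 * φ) (h1 n hn k hk)
  by_cases hnk : n = k
  · rw [if_pos hnk]
    have e : JJ q a b (ω n - ω k) 0 = ∫ u in a..b, u ^ q := by
      unfold JJ
      rw [hnk]
      simp
    rw [e]
    have e2 : β n * β k * (1 / 2) * ((∫ u in a..b, u ^ q) + JJ q a b (ω n + ω k) (-2 * φ)) -
        β n * β k * (1 / 2) * (∫ u in a..b, u ^ q) = β n * β k * (1 / 2) * JJ q a b (ω n + ω k) (-2 * φ) := by ring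
    rw [e2, abs_mul, abs_mul, abs_mul, abs_of_pos (by norm_num : (0:ℝ) < 1 / 2)]
    calc |β n| * |β k| * (1 / 2) * |JJ q a b (ω n + ω k) (-2 * φ)|
        ≤ |β n| * |β k| * 1 * ((2 * q + 5) * D * b ^ (q + 1 / 2)) := by
          gcongr
          norm_num
      _ = _ := by ring
  · rw [if_neg hnk, sub_zero, abs_mul, abs_mul, abs_mul, abs_of_pos (by norm_num : (0:ℝ) < 1 / 2)]
    have hm := hosc _ 0 (h2 n hn k hk hnk)
    have := abs_add_le (JJ q a b (ω n - ω k) 0) (JJ q a b (ω n + ω k) (-2 * φ))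
    calc |β n| * |β k| * (1 / 2) * |JJ q a b (ω n - ω k) 0 + JJ q a b (ω n + ω k) (-2 * φ)|
        ≤ |β n| * |β k| * (1 / 2) * ((2 * q + 5) * D * b ^ (q + 1 / 2) + (2 * q + 5) * D * b ^ (q + 1 / 2)) := by
          gcongr
          linarith
      _ = _ := by ring

/-! ### high frequencies -/

/-- Schur kernel -/
noncomputable def kerG (d : ℕ) : ℝ := 4 * (1 + (d : ℝ)) ^ (-(17 / 16) : ℝ)

lemma kerG_nonneg (d : ℕ) : 0 ≤ kerG d := by unfold kerG; positivity

lemma kerG_summable : Summable (fun d : ℕ => kerG d) := by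
  unfold kerG
  apply Summable.mul_left
  have h : Summable (fun n : ℕ => (n : ℝ) ^ (-(17 / 16) : ℝ)) := Real.summable_nat_rpow.2 (by norm_num)
  have := (summable_nat_add_iff 1).2 h
  refine this.congr ?_
  intro n
  push_cast
  rw [add_comm]

/-- Schur test on `ℕ` -/
lemma schur (C : Finset ℕ) (T : ℕ → ℝ) :
    ∑ y ∈ C, ∑ z ∈ C, |T y| * |T z| * kerG (Nat.dist y z) ≤ (2 * ∑' d, kerG d) * ∑ y ∈ C, T y ^ 2 := by
  have hrow : ∀ y : ℕ, ∑ z ∈ C, kerG (Nat.dist y z) ≤ 2 * ∑' d, kerG d := by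
    intro y
    have h1 : ∑ z ∈ C, kerG (Nat.dist y z) = ∑ z ∈ C.filter (fun z => z ≤ y), kerG (Nat.dist y z) +
        ∑ z ∈ C.filter (fun z => ¬ z ≤ y), kerG (Nat.dist y z) := (Finset.sum_filter_add_sum_filter_not _ _ _).symm
    have h2 : ∑ z ∈ C.filter (fun z => z ≤ y), kerG (Nat.dist y z) ≤ ∑' d, kerG d := by
      rw [← Finset.sum_image (f := fun d => kerG d) (g := fun z => Nat.dist y z)]
      · exact kerG_summable.sum_le_tsum _ (fun _ _ => kerG_nonneg _)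
      · intro z1 hz1 z2 hz2 h
        simp only [Finset.coe_filter, Set.mem_ofPred_eq] at hz1 hz2
        simp only [Nat.dist] at h
        omega
    have h3 : ∑ z ∈ C.filter (fun z => ¬ z ≤ y), kerG (Nat.dist y z) ≤ ∑' d, kerG d := by
      rw [← Finset.sum_image (f := fun d => kerG d) (g := fun z => Nat.dist y z)]
      · exact kerG_summable.sum_le_tsum _ (fun _ _ => kerG_nonneg _)
      · intro z1 hz1 z2 hz2 h
        simp only [Finset.coe_filter, Set.mem_ofPred_eq] at hz1 hz2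
        simp only [Nat.dist] at h
        omega
    linarith
  calc ∑ y ∈ C, ∑ z ∈ C, |T y| * |T z| * kerG (Nat.dist y z)
      ≤ ∑ y ∈ C, ∑ z ∈ C, ((1 / 2) * T y ^ 2 * kerG (Nat.dist y z) + (1 / 2) * T z ^ 2 * kerG (Nat.dist y z)) := by
        apply Finset.sum_le_sum
        intro y _
        apply Finset.sum_le_sum
        intro z _
        rw [← add_mul]
        apply mul_le_mul_of_nonneg_right _ (kerG_nonneg _)
        rw [← sq_abs (T y), ← sq_abs (T z)]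
        nlinarith [sq_nonneg (|T y| - |T z|)]
    _ = (1 / 2) * ∑ y ∈ C, T y ^ 2 * ∑ z ∈ C, kerG (Nat.dist y z) +
        (1 / 2) * ∑ z ∈ C, T z ^ 2 * ∑ y ∈ C, kerG (Nat.dist z y) := by
        simp_rw [Finset.sum_add_distrib]
        congr 1
        · rw [Finset.mul_sum]
          apply Finset.sum_congr rfl
          intro y _
          rw [Finset.mul_sum, Finset.mul_sum]
          apply Finset.sum_congr rfl
          intro z _
          ring
        · rw [Finset.sum_comm, Finset.mul_sum]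
          apply Finset.sum_congr rfl
          intro z _
          rw [Finset.mul_sum, Finset.mul_sum]
          apply Finset.sum_congr rfl
          intro y _
          rw [Nat.dist_comm]
          ring
    _ ≤ (1 / 2) * ∑ y ∈ C, T y ^ 2 * (2 * ∑' d, kerG d) + (1 / 2) * ∑ z ∈ C, T z ^ 2 * (2 * ∑' d, kerG d) := by
        gcongr with y _ z _
        · exact hrow y
        · exact hrow z
    _ = _ := by
        rw [← Finset.sum_mul]
        ring

/-- kernel bound for a pair of frequencies -/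
lemma pair_bound {q a b Y : ℝ} (hq : 1 / 2 ≤ q) (ha : 0 < a) (hab : a ≤ b) (hb1 : 1 ≤ b) (hYb : Y ≤ b ^ (7 / 8 : ℝ))
    {v w : ℝ} (hv : 0 < v) (hw : 0 < w) (hvY : v ≤ Y) (hwY : w ≤ Y) (φ : ℝ) :
    |JJ q a b (2 * √v - 2 * √w) 0 + JJ q a b (2 * √v + 2 * √w) φ| ≤
      2 * ((2 * q + 5) * b ^ (q + 1) * kerG (Nat.dist ⌊v⌋₊ ⌊w⌋₊)) := by
  have hb0 : 0 < b := by linarith
  set d := Nat.dist ⌊v⌋₊ ⌊w⌋₊ with hd
  rcases Nat.lt_or_ge d 2 with hd2 | hd2
  · -- trivial bound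
    have h1 := JJ_triv (q := q) (by linarith) ha hab (2 * √v - 2 * √w) 0
    have h2 := JJ_triv (q := q) (by linarith) ha hab (2 * √v + 2 * √w) φ
    have h3 : 1 ≤ kerG d := by
      unfold kerG
      have h4 : (1 + (d : ℝ)) ≤ 2 := by
        have : (d : ℝ) ≤ 1 := by exact_mod_cast (by omega : d ≤ 1)
        linarith
      have h5 : (2 : ℝ) ^ (-(17 / 16) : ℝ) ≤ (1 + (d : ℝ)) ^ (-(17 / 16) : ℝ) :=
        Real.rpow_le_rpow_of_nonpos (by positivity) h4 (by norm_num)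
      have h6 : (2 : ℝ) ^ (-2 : ℝ) ≤ (2 : ℝ) ^ (-(17 / 16) : ℝ) :=
        Real.rpow_le_rpow_of_exponent_le (by norm_num) (by norm_num)
      have h7 : (2 : ℝ) ^ (-2 : ℝ) = 1 / 4 := by
        rw [Real.rpow_neg (by norm_num), Real.rpow_ofNat]
        norm_num
      linarith
    have h8 : b ^ (q + 1) ≤ (2 * q + 5) * b ^ (q + 1) * kerG d := by
      have : 0 < b ^ (q + 1) := by positivity
      have h9 : (1 : ℝ) ≤ 2 * q + 5 := by linarith
      calc b ^ (q + 1) = 1 * b ^ (q + 1) * 1 := by ring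
        _ ≤ _ := by gcongr
    have := abs_add_le (JJ q a b (2 * √v - 2 * √w) 0) (JJ q a b (2 * √v + 2 * √w) φ)
    linarith
  · -- oscillation
    have hsv : 0 < √v := Real.sqrt_pos.2 hv
    have hsw : 0 < √w := Real.sqrt_pos.2 hw
    have hd1 : (1 : ℝ) ≤ (d : ℝ) - 1 := by
      have : (2 : ℝ) ≤ d := by exact_mod_cast hd2
      linarith
    have hd0 : (0 : ℝ) < (d : ℝ) - 1 := by linarith
    have hvw : (d : ℝ) - 1 ≤ |v - w| := by
      have f1 := Nat.floor_le hv.le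
      have f2 := Nat.lt_floor_add_one v
      have f3 := Nat.floor_le hw.le
      have f4 := Nat.lt_floor_add_one w
      rcases Nat.le_total ⌊v⌋₊ ⌊w⌋₊ with h | h
      · have e : d + ⌊v⌋₊ = ⌊w⌋₊ := by
          rw [hd, Nat.dist_eq_sub_of_le h]; omega
        have e' : (d : ℝ) + ⌊v⌋₊ = ⌊w⌋₊ := by exact_mod_cast e
        rw [abs_sub_comm]
        exact le_trans (by linarith) (le_abs_self _)
      · have e : d + ⌊w⌋₊ = ⌊v⌋₊ := by
          rw [hd, Nat.dist_eq_sub_of_le_right h]; omega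
        have e' : (d : ℝ) + ⌊w⌋₊ = ⌊v⌋₊ := by exact_mod_cast e
        exact le_trans (by linarith) (le_abs_self _)
    have hY0 : 0 < Y := lt_of_lt_of_le hv hvY
    have hdY : (d : ℝ) - 1 ≤ Y := by
      refine hvw.trans ?_
      rw [abs_le]
      constructor <;> linarith
    have hsY : √Y ≤ b ^ (7 / 16 : ℝ) := by
      rw [Real.sqrt_eq_rpow]
      calc Y ^ (1 / 2 : ℝ) ≤ (b ^ (7 / 8 : ℝ)) ^ (1 / 2 : ℝ) := Real.rpow_le_rpow hY0.le hYb (by norm_num)
        _ = b ^ (7 / 16 : ℝ) := by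
          rw [← Real.rpow_mul hb0.le]
          norm_num
    have hsY0 : 0 < √Y := Real.sqrt_pos.2 hY0
    have h1 : ((d : ℝ) - 1) / √Y ≤ |2 * √v - 2 * √w| := by
      have e : v - w = (√v - √w) * (√v + √w) := by
        have a1 := Real.mul_self_sqrt hv.le
        have a2 := Real.mul_self_sqrt hw.le
        linear_combination -a1 + a2
      rw [div_le_iff₀ hsY0]
      have a3 : √v ≤ √Y := Real.sqrt_le_sqrt hvY
      have a4 : √w ≤ √Y := Real.sqrt_le_sqrt hwY
      calc (d : ℝ) - 1 ≤ |v - w| := hvw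
        _ = |√v - √w| * (√v + √w) := by rw [e, abs_mul, abs_of_pos (by positivity : 0 < √v + √w)]
        _ ≤ |√v - √w| * (√Y + √Y) := by gcongr
        _ = |2 * √v - 2 * √w| * √Y := by
          rw [← mul_sub, abs_mul, abs_two]; ring
    have h2 : |2 * √v - 2 * √w| ≤ |2 * √v + 2 * √w| := by
      rw [abs_of_pos (by positivity : 0 < 2 * √v + 2 * √w), abs_le]
      constructor <;> linarith
    have hker : ∀ ω ψ : ℝ, ((d : ℝ) - 1) / √Y ≤ |ω| → |JJ q a b ω ψ| ≤ (2 * q + 5) * b ^ (q + 1) * kerG d := by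
      intro ω ψ hω
      have hω0 : 0 < |ω| := lt_of_lt_of_le (by positivity) hω
      refine (JJ_osc hq ha hab (abs_pos.1 hω0) ψ).trans ?_
      have a1 : 1 / |ω| ≤ √Y / ((d : ℝ) - 1) := by
        rw [div_le_div_iff₀ hω0 hd0]
        rw [div_le_iff₀ hsY0] at hω
        linarith
      have a2 : √Y / ((d : ℝ) - 1) * b ^ (q + 1 / 2) ≤ b ^ (q + 1) * kerG d := by
        have a3 : ((d : ℝ) - 1) ^ (1 / 16 : ℝ) ≤ b ^ (1 / 16 : ℝ) := by
          apply Real.rpow_le_rpow hd0.le _ (by norm_num)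
          refine hdY.trans (hYb.trans ?_)
          calc b ^ (7 / 8 : ℝ) ≤ b ^ (1 : ℝ) := Real.rpow_le_rpow_of_exponent_le hb1 (by norm_num)
            _ = b := Real.rpow_one b
        have a4 : ((d : ℝ) - 1)⁻¹ ≤ b ^ (1 / 16 : ℝ) * ((d : ℝ) - 1) ^ (-(17 / 16) : ℝ) := by
          have : ((d : ℝ) - 1)⁻¹ = ((d : ℝ) - 1) ^ (1 / 16 : ℝ) * ((d : ℝ) - 1) ^ (-(17 / 16) : ℝ) := by
            rw [← Real.rpow_add hd0, ← Real.rpow_neg_one]
            norm_num
          rw [this]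
          gcongr
        have a5 : ((d : ℝ) - 1) ^ (-(17 / 16) : ℝ) ≤ kerG d := by
          unfold kerG
          have b1 : (1 + (d : ℝ)) / 3 ≤ (d : ℝ) - 1 := by linarith
          have b2 : ((d : ℝ) - 1) ^ (-(17 / 16) : ℝ) ≤ ((1 + (d : ℝ)) / 3) ^ (-(17 / 16) : ℝ) :=
            Real.rpow_le_rpow_of_nonpos (by positivity) b1 (by norm_num)
          refine b2.trans ?_
          rw [Real.div_rpow (by positivity) (by norm_num), div_eq_mul_inv, ← Real.rpow_neg (by norm_num), neg_neg, mul_comm]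
          have b3 : (3 : ℝ) ^ (17 / 16 : ℝ) ≤ 4 := by
            have c1 : (3 : ℝ) ^ (17 / 16 : ℝ) ≤ 4 ^ (1 : ℝ) := by
              have c2 : (3 : ℝ) ≤ 4 ^ (16 / 17 : ℝ) := by
                have c3 : (3 : ℝ) ^ (17 : ℕ) ≤ (4 ^ (16 / 17 : ℝ)) ^ (17 : ℕ) := by
                  rw [← Real.rpow_natCast (4 ^ (16 / 17 : ℝ)), ← Real.rpow_mul (by norm_num)]
                  norm_num
                exact le_of_pow_le_pow_left₀ (by norm_num) (by positivity) c3
              calc (3 : ℝ) ^ (17 / 16 : ℝ) ≤ (4 ^ (16 / 17 : ℝ)) ^ (17 / 16 : ℝ) :=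
                    Real.rpow_le_rpow (by norm_num) c2 (by norm_num)
                _ = 4 ^ (1 : ℝ) := by
                    rw [← Real.rpow_mul (by norm_num)]
                    norm_num
            rwa [Real.rpow_one] at c1
          gcongr
        calc √Y / ((d : ℝ) - 1) * b ^ (q + 1 / 2) = √Y * ((d : ℝ) - 1)⁻¹ * b ^ (q + 1 / 2) := by ring
          _ ≤ b ^ (7 / 16 : ℝ) * (b ^ (1 / 16 : ℝ) * kerG d) * b ^ (q + 1 / 2) := by
            have := kerG_nonneg d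
            have a6 := a4.trans (mul_le_mul_of_nonneg_left a5 (by positivity : 0 ≤ b ^ (1 / 16 : ℝ)))
            gcongr
          _ = (b ^ (7 / 16 : ℝ) * b ^ (1 / 16 : ℝ) * b ^ (q + 1 / 2)) * kerG d := by ring
          _ = _ := by
            rw [← Real.rpow_add hb0, ← Real.rpow_add hb0]
            congr 2
            ring
      calc (2 * q + 5) / |ω| * b ^ (q + 1 / 2) = (2 * q + 5) * ((1 / |ω|) * b ^ (q + 1 / 2)) := by ring
        _ ≤ (2 * q + 5) * (√Y / ((d : ℝ) - 1) * b ^ (q + 1 / 2)) := by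
          gcongr
        _ ≤ (2 * q + 5) * (b ^ (q + 1) * kerG d) := by gcongr
        _ = _ := by ring
    have h3 := hker _ 0 h1
    have h4 := hker _ φ (h1.trans h2)
    have := abs_add_le (JJ q a b (2 * √v - 2 * √w) 0) (JJ q a b (2 * √v + 2 * √w) φ)
    linarith

/-- mean square of the high frequencies -/
lemma high_bound {q a b Y : ℝ} (hq : 1 / 2 ≤ q) (ha : 0 < a) (hab : a ≤ b) (hb1 : 1 ≤ b) (hYb : Y ≤ b ^ (7 / 8 : ℝ))
    (S : Finset ℕ) (β u : ℕ → ℝ) (φ : ℝ) (hu : ∀ n ∈ S, 0 < u n ∧ u n ≤ Y) :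
    ∫ x in a..b, x ^ q * hS S β (fun n => 2 * √(u n)) φ x ^ 2 ≤
      (2 * q + 5) * b ^ (q + 1) * ((2 * ∑' d, kerG d) * ∑ y ∈ S.image (fun n => ⌊u n⌋₊),
        (∑ n ∈ S.filter (fun n => ⌊u n⌋₊ = y), |β n|) ^ 2) := by
  have hb0 : 0 < b := by linarith
  rw [hS_int (by linarith)]
  set C := S.image (fun n => ⌊u n⌋₊) with hC
  set T : ℕ → ℝ := fun y => ∑ n ∈ S.filter (fun n => ⌊u n⌋₊ = y), |β n| with hT
  have hT0 : ∀ y, 0 ≤ T y := fun _ => Finset.sum_nonneg (fun _ _ => abs_nonneg _)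
  have h1 : ∑ n ∈ S, ∑ k ∈ S, β n * β k * (1 / 2) * (JJ q a b (2 * √(u n) - 2 * √(u k)) 0 +
      JJ q a b (2 * √(u n) + 2 * √(u k)) (-2 * φ)) ≤
      ∑ n ∈ S, ∑ k ∈ S, (2 * q + 5) * b ^ (q + 1) * (|β n| * |β k| * kerG (Nat.dist ⌊u n⌋₊ ⌊u k⌋₊)) := by
    apply Finset.sum_le_sum
    intro n hn
    apply Finset.sum_le_sum
    intro k hk
    have hp := pair_bound hq ha hab hb1 hYb (hu n hn).1 (hu k hk).1 (hu n hn).2 (hu k hk).2 (-2 * φ)
    refine (le_abs_self _).trans ?_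
    rw [abs_mul, abs_mul, abs_mul, abs_of_pos (by norm_num : (0:ℝ) < 1 / 2)]
    calc |β n| * |β k| * (1 / 2) * |JJ q a b (2 * √(u n) - 2 * √(u k)) 0 + JJ q a b (2 * √(u n) + 2 * √(u k)) (-2 * φ)|
        ≤ |β n| * |β k| * (1 / 2) * (2 * ((2 * q + 5) * b ^ (q + 1) * kerG (Nat.dist ⌊u n⌋₊ ⌊u k⌋₊))) := by gcongr
      _ = _ := by ring
  refine h1.trans ?_
  have hmap : ∀ n ∈ S, ⌊u n⌋₊ ∈ C := fun n hn => Finset.mem_image_of_mem _ hn
  have h2 : ∑ n ∈ S, ∑ k ∈ S, (2 * q + 5) * b ^ (q + 1) * (|β n| * |β k| * kerG (Nat.dist ⌊u n⌋₊ ⌊u k⌋₊)) =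
      (2 * q + 5) * b ^ (q + 1) * ∑ y ∈ C, ∑ z ∈ C, |T y| * |T z| * kerG (Nat.dist y z) := by
    rw [Finset.mul_sum, ← Finset.sum_fiberwise_of_maps_to hmap]
    apply Finset.sum_congr rfl
    intro y _
    have e1 : ∀ n ∈ S.filter (fun n => ⌊u n⌋₊ = y), ∑ k ∈ S, (2 * q + 5) * b ^ (q + 1) *
        (|β n| * |β k| * kerG (Nat.dist ⌊u n⌋₊ ⌊u k⌋₊)) = |β n| * ((2 * q + 5) * b ^ (q + 1) * ∑ z ∈ C, T z * kerG (Nat.dist y z)) := by
      intro n hn
      rw [(Finset.mem_filter.1 hn).2, ← Finset.sum_fiberwise_of_maps_to hmap, Finset.mul_sum, Finset.mul_sum]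
      apply Finset.sum_congr rfl
      intro z _
      simp only [hT]
      rw [Finset.sum_mul, Finset.mul_sum, Finset.mul_sum]
      apply Finset.sum_congr rfl
      intro k hk
      rw [(Finset.mem_filter.1 hk).2]
      ring
    rw [Finset.sum_congr rfl e1, ← Finset.sum_mul]
    rw [show (∑ i ∈ S.filter (fun n => ⌊u n⌋₊ = y), |β i|) = T y from rfl]
    rw [Finset.mul_sum, Finset.mul_sum, Finset.mul_sum]
    apply Finset.sum_congr rfl
    intro z _
    rw [abs_of_nonneg (hT0 y), abs_of_nonneg (hT0 z)]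
    ring
  rw [h2]
  have := schur C T
  have h3 : 0 ≤ (2 * q + 5) * b ^ (q + 1) := by
    have : 0 < b ^ (q + 1) := by positivity
    have : 0 < 2 * q + 5 := by linarith
    positivity
  exact mul_le_mul_of_nonneg_left this h3

end Pool.Agent.H295.SM2
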