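import Pool.Agent.H295.SM1.Main
import Pool.Agent.H295.SM2.Bes
import Pool.Agent.H295.SM2.Osc

set_option autoImplicit false

/-!
# TaskSM2, part 3: coefficients and single terms
-/

open MeasureTheory Set Filter Topology

namespace Pool.Agent.H295.SM2

open Pool.Agent.H469R10.HO Pool.Agent.H13R3.EM Pool.Agent.H472.Q2 Pool.Agent.H295.SM1

variable {m : ℕ} {c M : ℝ} {α : ℕ → ℝ}

/-- coefficients of the trigonometric sum -/
noncomputable def bb (m : ℕ) (c : ℝ) (α : ℕ → ℝ) (n : ℕ) : ℝ := α n * uu c (lamQ m) n ^ ((m : ℝ) - 1 / 4)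

/-- frequencies -/
noncomputable def om (m : ℕ) (c : ℝ) (n : ℕ) : ℝ := 2 * √(uu c (lamQ m) n)

lemma uu_pos (hc : 0 < c) {n : ℕ} (hn : 1 ≤ n) : c ≤ uu c (lamQ m) n := by
  unfold uu
  have h1 : (1 : ℝ) ≤ n := by exact_mod_cast hn
  have h2 : (1 : ℝ) ≤ (n : ℝ) ^ (1 / lamQ m) := Real.one_le_rpow h1 (by have := lamQ_pos m; positivity)
  nlinarith

lemma term_asymp (m : ℕ) (α : ℕ → ℝ) : ∃ ρ φ C : ℝ, 0 < ρ ∧ 0 ≤ C ∧ ∀ c : ℝ, 0 < c → ∀ n : ℕ, 1 ≤ n →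
    ∀ x : ℝ, 0 < x → 1 ≤ uu c (lamQ m) n * x →
    |α n * uu c (lamQ m) n ^ (2 * m + 1) * BB m (uu c (lamQ m) n) x -
      x ^ ((m : ℝ) + 3 / 4) * (ρ * (bb m c α n * Real.cos (om m c n * √x - φ)))| ≤
      C * (|α n| * uu c (lamQ m) n ^ ((m : ℝ) - 3 / 4)) * x ^ ((m : ℝ) + 1 / 4) := by
  obtain ⟨ρ, φ, C, hρ, hC, h⟩ := bes (μ := 2 * (m : ℝ) + 2) (by have : (0:ℝ) ≤ m := Nat.cast_nonneg m; linarith)
  refine ⟨ρ, φ, C, hρ, hC, ?_⟩
  intro c hc n hn x hx hwx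
  set w := uu c (lamQ m) n with hw
  have hw0 : 0 < w := lt_of_lt_of_le hc (uu_pos hc hn)
  have h1 := h (w * x) hwx
  have e0 : (2 * (m : ℝ) + 2) / 2 - 1 / 4 = (m : ℝ) + 3 / 4 := by ring
  have e0' : (2 * (m : ℝ) + 2) / 2 - 3 / 4 = (m : ℝ) + 1 / 4 := by ring
  rw [e0, e0'] at h1
  have e1 : α n * w ^ (2 * m + 1) * BB m w x = (α n * w⁻¹) * ((w * x) ^ (2 * (m : ℝ) + 2) * Pool.Agent.X88.Bessel.A (2 * (m : ℝ) + 2) (w * x)) := by
    unfold BB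
    have e2 : (w * x) ^ (2 * (m : ℝ) + 2) = w ^ (2 * m + 2) * x ^ (2 * m + 2) := by
      rw [← mul_pow, ← Real.rpow_natCast]
      push_cast
      rfl
    rw [e2]
    have : w ^ (2 * m + 2) = w ^ (2 * m + 1) * w := pow_succ _ _
    rw [this]
    field_simp
  have e3 : x ^ ((m : ℝ) + 3 / 4) * (ρ * (bb m c α n * Real.cos (om m c n * √x - φ))) =
      (α n * w⁻¹) * ((w * x) ^ ((m : ℝ) + 3 / 4) * (ρ * Real.cos (2 * √(w * x) - φ))) := by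
    unfold bb om
    rw [← hw, Real.sqrt_mul hw0.le, Real.mul_rpow hw0.le hx.le]
    have : w ^ ((m : ℝ) - 1 / 4) = w⁻¹ * w ^ ((m : ℝ) + 3 / 4) := by
      rw [← Real.rpow_neg_one, ← Real.rpow_add hw0]
      congr 1
      ring
    rw [this, ← mul_assoc 2]
    ring
  rw [e1, e3, ← mul_sub, abs_mul]
  have e4 : C * (|α n| * w ^ ((m : ℝ) - 3 / 4)) * x ^ ((m : ℝ) + 1 / 4) = |α n * w⁻¹| * (C * (w * x) ^ ((m : ℝ) + 1 / 4)) := by
    rw [abs_mul, abs_of_pos (inv_pos.2 hw0), Real.mul_rpow hw0.le hx.le]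
    have : w ^ ((m : ℝ) - 3 / 4) = w⁻¹ * w ^ ((m : ℝ) + 1 / 4) := by
      rw [← Real.rpow_neg_one, ← Real.rpow_add hw0]
      congr 1
      ring
    rw [this]
    ring
  rw [e4]
  exact mul_le_mul_of_nonneg_left h1 (abs_nonneg _)

lemma hM0 (hD : DataSM m c M α) : 0 ≤ M := by
  have := hD.hM ∅
  simpa using this

/-- `u_n ≤ 1 + floor u_n` -/
lemma uu_le_fl (_hc : 0 < c) (n : ℕ) : uu c (lamQ m) n ≤ 1 + (⌊uu c (lamQ m) n⌋₊ : ℝ) := by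
  have := Nat.lt_floor_add_one (uu c (lamQ m) n)
  linarith

lemma cell_pow (hc : 0 < c) {e : ℝ} (he : 0 ≤ e) (S : Finset ℕ) (y : ℕ) :
    ∑ n ∈ S.filter (fun n => ⌊uu c (lamQ m) n⌋₊ = y), |α n| * uu c (lamQ m) n ^ e ≤
      (1 + (y : ℝ)) ^ e * ∑ n ∈ S.filter (fun n => ⌊uu c (lamQ m) n⌋₊ = y), |α n| := by
  rw [Finset.mul_sum]
  apply Finset.sum_le_sum
  intro n hn
  have h1 := (Finset.mem_filter.1 hn).2
  have h2 := uu_le_fl (m := m) hc n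
  rw [h1] at h2
  have h3 : uu c (lamQ m) n ^ e ≤ (1 + (y : ℝ)) ^ e := Real.rpow_le_rpow (uu_nonneg hc n) h2 he
  rw [mul_comm]
  gcongr

/-- absolute convergence of the remainder coefficients -/
lemma sum_al (hD : DataSM m c M α) : ∃ B1 : ℝ, 0 ≤ B1 ∧ ∀ S : Finset ℕ,
    ∑ n ∈ S, |α n| * uu c (lamQ m) n ^ ((m : ℝ) - 3 / 4) ≤ B1 := by
  have hc := hD.hc
  have hm1 : (1 : ℝ) ≤ m := by exact_mod_cast hD.hm
  have hM := hM0 hD
  have hz : Summable (fun y : ℕ => (1 + (y : ℝ)) ^ (-(5 / 4) : ℝ)) := by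
    have h : Summable (fun n : ℕ => (n : ℝ) ^ (-(5 / 4) : ℝ)) := Real.summable_nat_rpow.2 (by norm_num)
    have := (summable_nat_add_iff 1).2 h
    refine this.congr ?_
    intro n
    push_cast
    rw [add_comm]
  set Z := ∑' y : ℕ, (1 + (y : ℝ)) ^ (-(5 / 4) : ℝ) with hZ
  have hZ0 : 0 ≤ Z := tsum_nonneg (fun _ => by positivity)
  refine ⟨(1 / 2) * (M + Z), by positivity, ?_⟩
  intro S
  have hmap : ∀ n ∈ S, ⌊uu c (lamQ m) n⌋₊ ∈ S.image (fun n => ⌊uu c (lamQ m) n⌋₊) :=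
    fun n hn => Finset.mem_image_of_mem _ hn
  rw [← Finset.sum_fiberwise_of_maps_to hmap]
  calc ∑ y ∈ S.image (fun n => ⌊uu c (lamQ m) n⌋₊), ∑ n ∈ S.filter (fun n => ⌊uu c (lamQ m) n⌋₊ = y),
        |α n| * uu c (lamQ m) n ^ ((m : ℝ) - 3 / 4)
      ≤ ∑ y ∈ S.image (fun n => ⌊uu c (lamQ m) n⌋₊), (1 + (y : ℝ)) ^ ((m : ℝ) - 3 / 4) *
        ∑ n ∈ S.filter (fun n => ⌊uu c (lamQ m) n⌋₊ = y), |α n| :=
        Finset.sum_le_sum (fun y _ => cell_pow hc (by linarith) S y)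
    _ ≤ ∑ y ∈ S.image (fun n => ⌊uu c (lamQ m) n⌋₊), ((1 / 2) * ((1 + (y : ℝ)) ^ (2 * (m : ℝ) - 1 / 4) *
        (∑ n ∈ S.filter (fun n => ⌊uu c (lamQ m) n⌋₊ = y), |α n|) ^ 2) + (1 / 2) * (1 + (y : ℝ)) ^ (-(5 / 4) : ℝ)) := by
        apply Finset.sum_le_sum
        intro y _
        set s := ∑ n ∈ S.filter (fun n => ⌊uu c (lamQ m) n⌋₊ = y), |α n|
        have hy : (0:ℝ) < 1 + (y : ℝ) := by positivity
        set p := (1 + (y : ℝ)) ^ ((m : ℝ) - 1 / 8) with hp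
        set r := (1 + (y : ℝ)) ^ (-(5 / 8) : ℝ) with hr
        have e1 : (1 + (y : ℝ)) ^ ((m : ℝ) - 3 / 4) = p * r := by
          rw [hp, hr, ← Real.rpow_add hy]
          congr 1
          ring
        have e2 : (1 + (y : ℝ)) ^ (2 * (m : ℝ) - 1 / 4) = p ^ 2 := by
          rw [hp, ← Real.rpow_natCast, ← Real.rpow_mul hy.le]
          congr 1
          push_cast
          ring
        have e3 : (1 + (y : ℝ)) ^ (-(5 / 4) : ℝ) = r ^ 2 := by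
          rw [hr, ← Real.rpow_natCast, ← Real.rpow_mul hy.le]
          congr 1
          norm_num
        rw [e1, e2, e3]
        nlinarith [sq_nonneg (p * s - r)]
    _ = (1 / 2) * (∑ y ∈ S.image (fun n => ⌊uu c (lamQ m) n⌋₊), (1 + (y : ℝ)) ^ (2 * (m : ℝ) - 1 / 4) *
        (∑ n ∈ S.filter (fun n => ⌊uu c (lamQ m) n⌋₊ = y), |α n|) ^ 2) +
        (1 / 2) * ∑ y ∈ S.image (fun n => ⌊uu c (lamQ m) n⌋₊), (1 + (y : ℝ)) ^ (-(5 / 4) : ℝ) := by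
        rw [Finset.sum_add_distrib, ← Finset.mul_sum, ← Finset.mul_sum]
    _ ≤ (1 / 2) * M + (1 / 2) * Z := by
        have h1 := hD.hM S
        have h2 := hz.sum_le_tsum (S.image (fun n => ⌊uu c (lamQ m) n⌋₊)) (fun _ _ => by positivity)
        gcongr
    _ = _ := by ring

/-- cells of the coefficients `bb`, beyond `J₀` -/
lemma cells_bb (hD : DataSM m c M α) {J : ℝ} (hJ : 0 < J) (S : Finset ℕ) (hS : ∀ n ∈ S, J ≤ uu c (lamQ m) n) :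
    ∑ y ∈ S.image (fun n => ⌊uu c (lamQ m) n⌋₊),
      (∑ n ∈ S.filter (fun n => ⌊uu c (lamQ m) n⌋₊ = y), |bb m c α n|) ^ 2 ≤ J ^ (-(1 / 4) : ℝ) * M := by
  have hc := hD.hc
  have hm1 : (1 : ℝ) ≤ m := by exact_mod_cast hD.hm
  have h1 := hD.hM S
  calc ∑ y ∈ S.image (fun n => ⌊uu c (lamQ m) n⌋₊),
      (∑ n ∈ S.filter (fun n => ⌊uu c (lamQ m) n⌋₊ = y), |bb m c α n|) ^ 2
      ≤ ∑ y ∈ S.image (fun n => ⌊uu c (lamQ m) n⌋₊), J ^ (-(1 / 4) : ℝ) * ((1 + (y : ℝ)) ^ (2 * (m : ℝ) - 1 / 4) *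
        (∑ n ∈ S.filter (fun n => ⌊uu c (lamQ m) n⌋₊ = y), |α n|) ^ 2) := by
        apply Finset.sum_le_sum
        intro y hy
        obtain ⟨n0, hn0, hn0y⟩ := Finset.mem_image.1 hy
        have hJy : J ≤ 1 + (y : ℝ) := by
          have := hS n0 hn0
          have h2 := uu_le_fl (m := m) hc n0
          rw [hn0y] at h2
          linarith
        have hy0 : (0:ℝ) < 1 + (y : ℝ) := by positivity
        have e1 : ∑ n ∈ S.filter (fun n => ⌊uu c (lamQ m) n⌋₊ = y), |bb m c α n| =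
            ∑ n ∈ S.filter (fun n => ⌊uu c (lamQ m) n⌋₊ = y), |α n| * uu c (lamQ m) n ^ ((m : ℝ) - 1 / 4) := by
          apply Finset.sum_congr rfl
          intro n _
          unfold bb
          rw [abs_mul, abs_of_nonneg (Real.rpow_nonneg (uu_nonneg hc n) _)]
        have h3 := cell_pow (m := m) (α := α) hc (e := (m : ℝ) - 1 / 4) (by linarith) S y
        rw [← e1] at h3
        set s := ∑ n ∈ S.filter (fun n => ⌊uu c (lamQ m) n⌋₊ = y), |α n| with hs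
        have hs0 : 0 ≤ s := Finset.sum_nonneg (fun _ _ => abs_nonneg _)
        have h0 : 0 ≤ ∑ n ∈ S.filter (fun n => ⌊uu c (lamQ m) n⌋₊ = y), |bb m c α n| :=
          Finset.sum_nonneg (fun _ _ => abs_nonneg _)
        have e2 : ((1 + (y : ℝ)) ^ ((m : ℝ) - 1 / 4)) ^ 2 = (1 + (y : ℝ)) ^ (-(1 / 4) : ℝ) * (1 + (y : ℝ)) ^ (2 * (m : ℝ) - 1 / 4) := by
          rw [← Real.rpow_natCast, ← Real.rpow_mul hy0.le, ← Real.rpow_add hy0]
          congr 1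
          push_cast
          ring
        have h4 : (1 + (y : ℝ)) ^ (-(1 / 4) : ℝ) ≤ J ^ (-(1 / 4) : ℝ) :=
          Real.rpow_le_rpow_of_nonpos hJ hJy (by norm_num)
        calc (∑ n ∈ S.filter (fun n => ⌊uu c (lamQ m) n⌋₊ = y), |bb m c α n|) ^ 2
            ≤ ((1 + (y : ℝ)) ^ ((m : ℝ) - 1 / 4) * s) ^ 2 := by gcongr
          _ = (1 + (y : ℝ)) ^ (-(1 / 4) : ℝ) * ((1 + (y : ℝ)) ^ (2 * (m : ℝ) - 1 / 4) * s ^ 2) := by
            rw [mul_pow, e2]; ring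
          _ ≤ _ := by gcongr
    _ = J ^ (-(1 / 4) : ℝ) * ∑ y ∈ S.image (fun n => ⌊uu c (lamQ m) n⌋₊), (1 + (y : ℝ)) ^ (2 * (m : ℝ) - 1 / 4) *
        (∑ n ∈ S.filter (fun n => ⌊uu c (lamQ m) n⌋₊ = y), |α n|) ^ 2 := by rw [← Finset.mul_sum]
    _ ≤ _ := by gcongr

/-- squares of the coefficients -/
lemma sq_bb (hD : DataSM m c M α) {J : ℝ} (hJ : 0 < J) (S : Finset ℕ) (hS : ∀ n ∈ S, J ≤ uu c (lamQ m) n) :
    ∑ n ∈ S, bb m c α n ^ 2 ≤ J ^ (-(1 / 4) : ℝ) * M := by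
  refine le_trans ?_ (cells_bb hD hJ S hS)
  have hmap : ∀ n ∈ S, ⌊uu c (lamQ m) n⌋₊ ∈ S.image (fun n => ⌊uu c (lamQ m) n⌋₊) :=
    fun n hn => Finset.mem_image_of_mem _ hn
  rw [← Finset.sum_fiberwise_of_maps_to hmap]
  apply Finset.sum_le_sum
  intro y _
  have : ∀ n ∈ S.filter (fun n => ⌊uu c (lamQ m) n⌋₊ = y), bb m c α n ^ 2 = |bb m c α n| ^ 2 := fun n _ => (sq_abs _).symm
  rw [Finset.sum_congr rfl this]
  exact Finset.sum_sq_le_sq_sum_of_nonneg (fun _ _ => abs_nonneg _)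

/-- `bb n` for `n ≥ 1` is square summable -/
lemma bb_summable (hD : DataSM m c M α) : Summable (fun n => bb m c α (n + 1) ^ 2) := by
  apply summable_of_sum_le (c := c ^ (-(1 / 4) : ℝ) * M) (fun _ => sq_nonneg _)
  intro S
  have h := sq_bb hD hD.hc (S.image (fun n => n + 1)) (by
    intro n hn
    obtain ⟨k, _, hk⟩ := Finset.mem_image.1 hn
    exact uu_pos hD.hc (by omega))
  rw [Finset.sum_image (fun a _ b _ h => by omega)] at h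
  exact h

end Pool.Agent.H295.SM2
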