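import Pool.Agent.H295.SM2.Main

set_option autoImplicit false

/-!
# TaskSM (helper295 for helper472): the second moment theorem, unconditional
-/

namespace Pool.Agent.H295.SM2

open Pool.Agent.H472.Q2

theorem taskSM : TaskSM := taskSM_of Pool.Agent.H295.SM1.taskSM1 taskSM2

end Pool.Agent.H295.SM2
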