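import Pool.Agent.H295.SM2.App

set_option autoImplicit false

/-!
# TaskSM2, part 6: the low part: Lipschitz bound and mean square
-/

open MeasureTheory Set Filter Topology

namespace Pool.Agent.H295.SM2

open Pool.Agent.H469R10.HO Pool.Agent.H13R3.EM Pool.Agent.H472.Q2 Pool.Agent.H295.SM1

variable {m : ℕ} {c M : ℝ} {α : ℕ → ℝ}

lemma sum_bb_le (hD : DataSM m c M α) {J : ℝ} (hJ : 1 ≤ J) :
    ∑ n ∈ FF m c J, |bb m c α n| ≤ (∑' n, |α n|) * J ^ (m : ℝ) := by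
  have hc := hD.hc
  have hJ0 : 0 < J := by linarith
  have hm1 : (1 : ℝ) ≤ m := by exact_mod_cast hD.hm
  rw [← tsum_mul_right]
  refine le_trans (Finset.sum_le_sum (g := fun n => |α n| * J ^ (m : ℝ)) (fun n hn => ?_))
    ((hD.hs.mul_right _).sum_le_tsum _ (fun n _ => by positivity))
  unfold FF at hn
  rw [mem_Icc_iff hc hJ0.le] at hn
  have h0 := uu_nonneg (m := m) hc n
  unfold bb
  rw [abs_mul, abs_of_nonneg (Real.rpow_nonneg h0 _)]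
  have h1 : uu c (lamQ m) n ^ ((m : ℝ) - 1 / 4) ≤ J ^ (m : ℝ) := by
    calc uu c (lamQ m) n ^ ((m : ℝ) - 1 / 4) ≤ J ^ ((m : ℝ) - 1 / 4) := Real.rpow_le_rpow h0 hn.2 (by linarith)
      _ ≤ J ^ (m : ℝ) := Real.rpow_le_rpow_of_exponent_le hJ (by linarith)
  gcongr

/-- Lipschitz bound of one term -/
lemma term_lip {r ω φ B x x' : ℝ} (hr : 1 ≤ r) (hω : 0 ≤ ω) (hx : 1 ≤ x) (hx' : 1 ≤ x') (hxB : x ≤ B) (hxB' : x' ≤ B) :
    |x ^ r * Real.cos (ω * √x - φ) - x' ^ r * Real.cos (ω * √x' - φ)| ≤ (r + ω / 2) * B ^ (r - 1 / 2) * |x - x'| := by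
  have h := (convex_Icc 1 B).norm_image_sub_le_of_norm_hasDerivWithin_le
    (f := fun x : ℝ => x ^ r * Real.cos (ω * √x - φ))
    (f' := fun x : ℝ => r * x ^ (r - 1) * Real.cos (ω * √x - φ) + x ^ r * (-Real.sin (ω * √x - φ) * (ω * (1 / (2 * √x)))))
    (C := (r + ω / 2) * B ^ (r - 1 / 2)) (x := x') (y := x) ?_ ?_ ⟨hx', hxB'⟩ ⟨hx, hxB⟩
  · simpa only [Real.norm_eq_abs] using h
  · intro y hy
    have hy0 : 0 < y := lt_of_lt_of_le one_pos hy.1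
    have h1 := Real.hasDerivAt_rpow_const (x := y) (p := r) (Or.inl hy0.ne')
    have h2 : HasDerivAt (fun u => Real.cos (ω * √u - φ)) (-Real.sin (ω * √y - φ) * (ω * (1 / (2 * √y)))) y :=
      ((((Real.hasDerivAt_sqrt hy0.ne').const_mul ω).sub_const φ).cos)
    exact (h1.mul h2).hasDerivWithinAt
  · intro y hy
    have hy1 : 1 ≤ y := hy.1
    have hy0 : 0 < y := lt_of_lt_of_le one_pos hy.1
    have hs : 0 < √y := Real.sqrt_pos.2 hy0
    have e1 : y ^ r * (1 / √y) = y ^ (r - 1 / 2) := by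
      rw [Real.sqrt_eq_rpow, one_div, ← Real.rpow_neg hy0.le, ← Real.rpow_add hy0]
      congr 1
    have e2 : y ^ r * (-Real.sin (ω * √y - φ) * (ω * (1 / (2 * √y)))) = -(ω / 2 * y ^ (r - 1 / 2) * Real.sin (ω * √y - φ)) := by
      rw [← e1]
      field_simp
    rw [e2, Real.norm_eq_abs]
    have h3 : y ^ (r - 1) ≤ y ^ (r - 1 / 2) := Real.rpow_le_rpow_of_exponent_le hy1 (by linarith)
    have h4 : y ^ (r - 1 / 2) ≤ B ^ (r - 1 / 2) := Real.rpow_le_rpow hy0.le hy.2 (by linarith)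
    have h5 := Real.abs_cos_le_one (ω * √y - φ)
    have h6 := Real.abs_sin_le_one (ω * √y - φ)
    have h7 : 0 ≤ y ^ (r - 1) := by positivity
    have h8 : 0 ≤ y ^ (r - 1 / 2) := by positivity
    calc |r * y ^ (r - 1) * Real.cos (ω * √y - φ) + -(ω / 2 * y ^ (r - 1 / 2) * Real.sin (ω * √y - φ))|
        ≤ |r * y ^ (r - 1) * Real.cos (ω * √y - φ)| + |-(ω / 2 * y ^ (r - 1 / 2) * Real.sin (ω * √y - φ))| := abs_add_le _ _
      _ = r * y ^ (r - 1) * |Real.cos (ω * √y - φ)| + ω / 2 * y ^ (r - 1 / 2) * |Real.sin (ω * √y - φ)| := by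
          rw [abs_neg, abs_mul, abs_mul (ω / 2 * y ^ (r - 1 / 2)), abs_of_nonneg (by positivity : 0 ≤ r * y ^ (r - 1)),
            abs_of_nonneg (by positivity : 0 ≤ ω / 2 * y ^ (r - 1 / 2))]
      _ ≤ r * B ^ (r - 1 / 2) * 1 + ω / 2 * B ^ (r - 1 / 2) * 1 := by
          have := h3.trans h4
          have h9 : 0 ≤ B ^ (r - 1 / 2) := h8.trans h4
          gcongr
      _ = _ := by ring

lemma Lo_lip (hD : DataSM m c M α) {ρ φ : ℝ} (hρ : 0 < ρ) : ∃ K : ℝ, 0 ≤ K ∧ ∀ U : ℝ, 2 ≤ U → ∀ J : ℝ, 1 ≤ J →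
    ∀ x ∈ Icc (U / 2) (2 * U), ∀ x' ∈ Icc (U / 2) (2 * U),
    |Lo m c α ρ φ J x - Lo m c α ρ φ J x'| ≤ K * U ^ ((m : ℝ) + 1 / 4) * J ^ ((m : ℝ) + 1 / 2) * |x - x'| := by
  have hc := hD.hc
  have hm1 : (1 : ℝ) ≤ m := by exact_mod_cast hD.hm
  set B := ∑' n, |α n| with hB
  have hB0 : 0 ≤ B := tsum_nonneg (fun _ => abs_nonneg _)
  refine ⟨ρ * (((m : ℝ) + 3 / 4 + 1) * 2 ^ ((m : ℝ) + 1 / 4)) * B, by positivity, ?_⟩
  intro U hU J hJ x hx x' hx'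
  have hU0 : 0 < U := by linarith
  have hJ0 : 0 < J := by linarith
  have e1 : ∀ y, Lo m c α ρ φ J y = ρ * ∑ n ∈ FF m c J, bb m c α n * (y ^ ((m : ℝ) + 3 / 4) * Real.cos (om m c n * √y - φ)) := by
    intro y
    unfold Lo hS
    rw [Finset.mul_sum, Finset.mul_sum, Finset.mul_sum]
    apply Finset.sum_congr rfl
    intro n _
    ring
  rw [e1, e1, ← mul_sub, ← Finset.sum_sub_distrib, abs_mul, abs_of_pos hρ]
  have h1 : |∑ n ∈ FF m c J, (bb m c α n * (x ^ ((m : ℝ) + 3 / 4) * Real.cos (om m c n * √x - φ)) -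
      bb m c α n * (x' ^ ((m : ℝ) + 3 / 4) * Real.cos (om m c n * √x' - φ)))| ≤
      ∑ n ∈ FF m c J, |bb m c α n| * (((m : ℝ) + 3 / 4 + 1) * 2 ^ ((m : ℝ) + 1 / 4) * U ^ ((m : ℝ) + 1 / 4) * J ^ (1 / 2 : ℝ) * |x - x'|) := by
    refine (Finset.abs_sum_le_sum_abs _ _).trans ?_
    apply Finset.sum_le_sum
    intro n hn
    unfold FF at hn
    rw [mem_Icc_iff hc hJ0.le] at hn
    rw [← mul_sub, abs_mul]
    apply mul_le_mul_of_nonneg_left _ (abs_nonneg _)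
    have hom : 0 ≤ om m c n := by unfold om; positivity
    have h2 := term_lip (r := (m : ℝ) + 3 / 4) (φ := φ) (B := 2 * U) (by linarith) hom
      (by linarith [hx.1] : 1 ≤ x) (by linarith [hx'.1] : 1 ≤ x') hx.2 hx'.2
    refine h2.trans ?_
    have h3 : om m c n / 2 ≤ J ^ (1 / 2 : ℝ) := by
      unfold om
      rw [← Real.sqrt_eq_rpow]
      have := Real.sqrt_le_sqrt hn.2
      linarith
    have h4 : 1 ≤ J ^ (1 / 2 : ℝ) := Real.one_le_rpow hJ (by norm_num)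
    have h5 : (m : ℝ) + 3 / 4 + om m c n / 2 ≤ ((m : ℝ) + 3 / 4 + 1) * J ^ (1 / 2 : ℝ) := by nlinarith
    have h6 : (2 * U) ^ ((m : ℝ) + 3 / 4 - 1 / 2) = 2 ^ ((m : ℝ) + 1 / 4) * U ^ ((m : ℝ) + 1 / 4) := by
      rw [← Real.mul_rpow (by norm_num) hU0.le]
      congr 1
      ring
    rw [h6]
    calc ((m : ℝ) + 3 / 4 + om m c n / 2) * (2 ^ ((m : ℝ) + 1 / 4) * U ^ ((m : ℝ) + 1 / 4)) * |x - x'|
        ≤ (((m : ℝ) + 3 / 4 + 1) * J ^ (1 / 2 : ℝ)) * (2 ^ ((m : ℝ) + 1 / 4) * U ^ ((m : ℝ) + 1 / 4)) * |x - x'| := by gcongr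
      _ = _ := by ring
  rw [← Finset.sum_mul] at h1
  have h2 := sum_bb_le hD hJ
  calc ρ * |∑ n ∈ FF m c J, (bb m c α n * (x ^ ((m : ℝ) + 3 / 4) * Real.cos (om m c n * √x - φ)) -
      bb m c α n * (x' ^ ((m : ℝ) + 3 / 4) * Real.cos (om m c n * √x' - φ)))|
      ≤ ρ * ((B * J ^ (m : ℝ)) * (((m : ℝ) + 3 / 4 + 1) * 2 ^ ((m : ℝ) + 1 / 4) * U ^ ((m : ℝ) + 1 / 4) * J ^ (1 / 2 : ℝ) * |x - x'|)) := by
        refine mul_le_mul_of_nonneg_left (h1.trans ?_) hρ.le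
        gcongr
    _ = ρ * (((m : ℝ) + 3 / 4 + 1) * 2 ^ ((m : ℝ) + 1 / 4)) * B * U ^ ((m : ℝ) + 1 / 4) * (J ^ (m : ℝ) * J ^ (1 / 2 : ℝ)) * |x - x'| := by
        ring
    _ = _ := by rw [← Real.rpow_add hJ0]

/-- separation of the frequencies -/
lemma om_sep (hc : 0 < c) {J : ℝ} (hJ : 1 ≤ J) {n k : ℕ} (hn : n ∈ FF m c J) (hk : k ∈ FF m c J) (hnk : n < k) :
    c ^ (1 + lamQ m) / (lamQ m) * J ^ (-(lamQ m + 1 / 2)) ≤ om m c k - om m c n := by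
  have hJ0 : 0 < J := by linarith
  have hl := lamQ_pos m
  unfold FF at hn hk
  rw [mem_Icc_iff hc hJ0.le] at hn hk
  have hun := uu_pos (m := m) hc hn.1
  have huk := uu_pos (m := m) hc hk.1
  have hun0 : 0 < uu c (lamQ m) n := by linarith
  have huk0 : 0 < uu c (lamQ m) k := by linarith
  set p := 1 / lamQ m with hp
  have hp0 : 0 < p := by positivity
  have hp1 : p ≤ 1 := by
    rw [hp, div_le_one hl]
    unfold lamQ
    have : (0:ℝ) ≤ m := Nat.cast_nonneg m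
    linarith
  have hk1 : (1 : ℝ) ≤ k := by exact_mod_cast hk.1
  have hk0 : (0 : ℝ) < k := by linarith
  -- k^p - n^p ≥ p / k
  have h1 : (n : ℝ) ^ p ≤ (k : ℝ) ^ p - p / k := by
    have h2 : (n : ℝ) ≤ (k : ℝ) - 1 := by
      have : (n : ℝ) + 1 ≤ k := by exact_mod_cast hnk
      linarith
    have h3 : (n : ℝ) ^ p ≤ ((k : ℝ) - 1) ^ p := Real.rpow_le_rpow (Nat.cast_nonneg n) h2 hp0.le
    have h4 : ((k : ℝ) - 1) ^ p = (k : ℝ) ^ p * (1 + (-(1 / (k : ℝ)))) ^ p := by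
      rw [← Real.mul_rpow hk0.le]
      · congr 1
        field_simp
        ring
      · have : 1 / (k : ℝ) ≤ 1 := by rw [div_le_one hk0]; exact hk1
        linarith
    have h5 : (1 + (-(1 / (k : ℝ)))) ^ p ≤ 1 + p * (-(1 / (k : ℝ))) := by
      apply rpow_one_add_le_one_add_mul_self _ hp0.le hp1
      have : 1 / (k : ℝ) ≤ 1 := by rw [div_le_one hk0]; exact hk1
      linarith
    have h6 : 1 ≤ (k : ℝ) ^ p := Real.one_le_rpow hk1 hp0.le
    calc (n : ℝ) ^ p ≤ (k : ℝ) ^ p * (1 + p * (-(1 / (k : ℝ)))) := by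
          rw [h4] at h3
          exact h3.trans (mul_le_mul_of_nonneg_left h5 (by positivity))
      _ = (k : ℝ) ^ p - (k : ℝ) ^ p * (p / k) := by ring
      _ ≤ _ := by
        have : 1 * (p / k) ≤ (k : ℝ) ^ p * (p / k) := by gcongr
        linarith
  have h7 : c * p / k ≤ uu c (lamQ m) k - uu c (lamQ m) n := by
    unfold uu
    rw [← hp]
    have := mul_le_mul_of_nonneg_left h1 hc.le
    have e : c * (p / k) = c * p / k := by ring
    linarith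
  -- k ≤ (J/c)^lam
  have h8 : (k : ℝ) ≤ (J / c) ^ lamQ m := by
    have h9 : c * (k : ℝ) ^ p ≤ J := hk.2
    have h10 : (k : ℝ) ^ p ≤ J / c := by rw [le_div_iff₀ hc]; linarith
    have h11 := Real.rpow_le_rpow (by positivity) h10 hl.le
    rw [← Real.rpow_mul hk0.le, hp, one_div, inv_mul_cancel₀ hl.ne', Real.rpow_one] at h11
    exact h11
  have hs : uu c (lamQ m) k - uu c (lamQ m) n = (√(uu c (lamQ m) k) - √(uu c (lamQ m) n)) * (√(uu c (lamQ m) k) + √(uu c (lamQ m) n)) := by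
    have a1 := Real.mul_self_sqrt hun0.le
    have a2 := Real.mul_self_sqrt huk0.le
    linear_combination a1 - a2
  have hsk : √(uu c (lamQ m) k) ≤ √J := Real.sqrt_le_sqrt hk.2
  have hsn : √(uu c (lamQ m) n) ≤ √J := Real.sqrt_le_sqrt hn.2
  have hpos : 0 < uu c (lamQ m) k - uu c (lamQ m) n := lt_of_lt_of_le (by positivity) h7
  have hsJ : 0 < √J := Real.sqrt_pos.2 hJ0
  have hdiff : 0 ≤ √(uu c (lamQ m) k) - √(uu c (lamQ m) n) := by
    have := Real.sqrt_le_sqrt (sub_nonneg.1 hpos.le)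
    linarith
  have h12 : (c * p / k) / √J ≤ om m c k - om m c n := by
    unfold om
    rw [div_le_iff₀ hsJ]
    calc c * p / k ≤ (√(uu c (lamQ m) k) - √(uu c (lamQ m) n)) * (√(uu c (lamQ m) k) + √(uu c (lamQ m) n)) := by
          rw [← hs]; exact h7
      _ ≤ (√(uu c (lamQ m) k) - √(uu c (lamQ m) n)) * (√J + √J) := by gcongr
      _ = _ := by ring
  refine le_trans ?_ h12
  have h13 : c ^ (1 + lamQ m) / (lamQ m) * J ^ (-(lamQ m + 1 / 2)) = (c * p / (J / c) ^ lamQ m) / √J := by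
    rw [Real.rpow_add hc, Real.rpow_one, Real.rpow_neg hJ0.le, Real.rpow_add hJ0, Real.div_rpow hJ0.le hc.le,
      Real.sqrt_eq_rpow, hp]
    have : 0 < c ^ lamQ m := by positivity
    have : 0 < J ^ lamQ m := by positivity
    have : 0 < J ^ (1 / 2 : ℝ) := by positivity
    field_simp
  rw [h13]
  gcongr

/-- mean square of the low part -/
lemma Lo_ms (hD : DataSM m c M α) {ρ φ : ℝ} (hρ : 0 < ρ) : ∃ K : ℝ, 0 ≤ K ∧ ∀ U : ℝ, 1 ≤ U → ∀ J : ℝ, 1 ≤ J →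
    ∀ U1 U2 : ℝ, U ≤ U1 → U1 ≤ U2 → U2 ≤ 2 * U →
    |(∫ u in U1..U2, u ^ (2 * m + 1) * Lo m c α ρ φ J u ^ 2) -
      ρ ^ 2 * (∑' n, bb m c α (n + 1) ^ 2) / (2 * (4 * (m : ℝ) + 7 / 2)) * (U2 ^ (4 * (m : ℝ) + 7 / 2) - U1 ^ (4 * (m : ℝ) + 7 / 2))| ≤
      K * (U ^ (4 * (m : ℝ) + 3) * J ^ (4 * (m : ℝ) + 5 / 2) + U ^ (4 * (m : ℝ) + 7 / 2) * J ^ (-(1 / 4) : ℝ)) := by
  have hc := hD.hc
  have hM := hM0 hD
  have hl := lamQ_pos m
  have hm1 : (1 : ℝ) ≤ m := by exact_mod_cast hD.hm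
  set B := ∑' n, |α n| with hB
  have hB0 : 0 ≤ B := tsum_nonneg (fun _ => abs_nonneg _)
  set q : ℝ := 4 * (m : ℝ) + 5 / 2 with hq
  set KD : ℝ := lamQ m / c ^ (1 + lamQ m) + 1 / √c with hKD
  have hsc : 0 < √c := Real.sqrt_pos.2 hc
  have hKD0 : 0 < KD := by positivity
  set σ := ∑' n, bb m c α (n + 1) ^ 2 with hσ
  refine ⟨ρ ^ 2 * ((2 * q + 5) * KD * 2 ^ (q + 1 / 2) * B ^ 2) + ρ ^ 2 * (M * 2 ^ (q + 1)), by positivity, ?_⟩
  intro U hU J hJ U1 U2 hU1 hU12 hU2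
  have hU0 : 0 < U := by linarith
  have hU10 : 0 < U1 := by linarith
  have hU20 : 0 < U2 := by linarith
  have hJ0 : 0 < J := by linarith
  set F := FF m c J with hF
  have e1 : ∫ u in U1..U2, u ^ (2 * m + 1) * Lo m c α ρ φ J u ^ 2 = ρ ^ 2 * ∫ u in U1..U2, u ^ q * hS F (bb m c α) (om m c) φ u ^ 2 := by
    rw [← intervalIntegral.integral_const_mul]
    apply intervalIntegral.integral_congr
    intro u hu
    rw [uIcc_of_le hU12] at hu
    have hu0 : 0 < u := lt_of_lt_of_le hU10 hu.1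
    simp only [Lo]
    have e2 : u ^ q = u ^ (2 * m + 1) * (u ^ ((m : ℝ) + 3 / 4)) ^ 2 := by
      rw [← Real.rpow_natCast u, ← Real.rpow_natCast (u ^ ((m : ℝ) + 3 / 4)), ← Real.rpow_mul hu0.le, ← Real.rpow_add hu0]
      congr 1
      rw [hq]
      push_cast
      ring
    rw [e2]
    ring
  set D := KD * J ^ (lamQ m + 1 / 2) with hDdef
  have hD0 : 0 < D := by positivity
  have hJl : 1 ≤ J ^ (lamQ m + 1 / 2) := Real.one_le_rpow hJ (by positivity)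
  have homc : ∀ n ∈ F, 2 * √c ≤ om m c n := by
    intro n hn
    rw [hF] at hn
    unfold FF at hn
    rw [mem_Icc_iff hc hJ0.le] at hn
    unfold om
    have := Real.sqrt_le_sqrt (uu_pos (m := m) hc hn.1)
    linarith
  have hsep1 : ∀ n ∈ F, ∀ k ∈ F, 1 / D ≤ |om m c n + om m c k| := by
    intro n hn k hk
    have h1 := homc n hn
    have h2 := homc k hk
    refine le_trans ?_ (le_abs_self _)
    have h3 : 1 / D ≤ √c := by
      rw [div_le_iff₀ hD0]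
      calc (1 : ℝ) = √c * (1 / √c) * 1 := by field_simp
        _ ≤ √c * KD * J ^ (lamQ m + 1 / 2) := by
          have : 1 / √c ≤ KD := by
            rw [hKD]
            have : 0 < lamQ m / c ^ (1 + lamQ m) := by positivity
            linarith
          gcongr
        _ = _ := by rw [hDdef]; ring
    linarith
  have hsep0 : 1 / D ≤ c ^ (1 + lamQ m) / (lamQ m) * J ^ (-(lamQ m + 1 / 2)) := by
    rw [Real.rpow_neg hJ0.le, div_le_iff₀ hD0, hDdef]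
    have h1 : lamQ m / c ^ (1 + lamQ m) ≤ KD := by
      rw [hKD]
      have : 0 < 1 / √c := by positivity
      linarith
    have h2 : 0 < c ^ (1 + lamQ m) := by positivity
    have h3 : 0 < J ^ (lamQ m + 1 / 2) := by positivity
    calc (1 : ℝ) = c ^ (1 + lamQ m) / (lamQ m) * (lamQ m / c ^ (1 + lamQ m)) := by field_simp
      _ ≤ c ^ (1 + lamQ m) / (lamQ m) * KD := by gcongr
      _ = _ := by field_simp
  have hsep2 : ∀ n ∈ F, ∀ k ∈ F, n ≠ k → 1 / D ≤ |om m c n - om m c k| := by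
    intro n hn k hk hnk
    rcases Nat.lt_or_gt_of_ne hnk with h | h
    · have := om_sep hc hJ hn hk h
      rw [abs_sub_comm]
      exact hsep0.trans (this.trans (le_abs_self _))
    · have := om_sep hc hJ hk hn h
      exact hsep0.trans (this.trans (le_abs_self _))
  have hlow := low_asymp (q := q) (by linarith) hU10 hU12 F (bb m c α) (om m c) φ D hD0 hsep1 hsep2
  have hint : ∫ u in U1..U2, u ^ q = (U2 ^ (q + 1) - U1 ^ (q + 1)) / (q + 1) := by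
    rw [integral_rpow]
    left
    linarith
  rw [hint] at hlow
  have hq1 : q + 1 = 4 * (m : ℝ) + 7 / 2 := by rw [hq]; ring
  have hsb := sum_bb_le hD hJ
  rw [← hF, ← hB] at hsb
  have hsb0 : 0 ≤ ∑ n ∈ F, |bb m c α n| := Finset.sum_nonneg (fun _ _ => abs_nonneg _)
  have hU2U : U2 ^ (q + 1 / 2) ≤ 2 ^ (q + 1 / 2) * U ^ (q + 1 / 2) := by
    rw [← Real.mul_rpow (by norm_num) hU0.le]
    exact Real.rpow_le_rpow hU20.le hU2 (by linarith)
  have hlow2 : (2 * q + 5) * D * U2 ^ (q + 1 / 2) * (∑ n ∈ F, |bb m c α n|) ^ 2 ≤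
      ((2 * q + 5) * KD * 2 ^ (q + 1 / 2) * B ^ 2) * (U ^ (4 * (m : ℝ) + 3) * J ^ (4 * (m : ℝ) + 5 / 2)) := by
    calc (2 * q + 5) * D * U2 ^ (q + 1 / 2) * (∑ n ∈ F, |bb m c α n|) ^ 2
        ≤ (2 * q + 5) * D * (2 ^ (q + 1 / 2) * U ^ (q + 1 / 2)) * (B * J ^ (m : ℝ)) ^ 2 := by gcongr
      _ = ((2 * q + 5) * KD * 2 ^ (q + 1 / 2) * B ^ 2) * (U ^ (q + 1 / 2) * (J ^ (lamQ m + 1 / 2) * (J ^ (m : ℝ)) ^ 2)) := by
          rw [hDdef]; ring
      _ = _ := by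
          have e3 : J ^ (lamQ m + 1 / 2) * (J ^ (m : ℝ)) ^ 2 = J ^ (4 * (m : ℝ) + 5 / 2) := by
            rw [← Real.rpow_natCast (J ^ (m : ℝ)), ← Real.rpow_mul hJ0.le, ← Real.rpow_add hJ0]
            congr 1
            unfold lamQ
            push_cast
            ring
          rw [e3, show q + 1 / 2 = 4 * (m : ℝ) + 3 by rw [hq]; ring]
  -- the diagonal tail
  have hsum := bb_summable hD
  have htail : 0 ≤ σ - ∑ n ∈ F, bb m c α n ^ 2 ∧ σ - ∑ n ∈ F, bb m c α n ^ 2 ≤ J ^ (-(1 / 4) : ℝ) * M := by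
    set N := ⌊(J / c) ^ (lamQ m)⌋₊ with hN
    have e4 : ∑ n ∈ F, bb m c α n ^ 2 = ∑ i ∈ Finset.range N, bb m c α (i + 1) ^ 2 := by
      rw [hF]
      unfold FF
      rw [← hN, Finset.range_eq_Ico, Finset.sum_Ico_add' (fun n => bb m c α n ^ 2) 0 N 1]
      rfl
    have e5 := hsum.sum_add_tsum_nat_add N
    have e6 : σ - ∑ n ∈ F, bb m c α n ^ 2 = ∑' i, bb m c α (i + N + 1) ^ 2 := by
      rw [e4, hσ]
      linarith
    rw [e6]
    refine ⟨tsum_nonneg (fun _ => sq_nonneg _), ?_⟩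
    apply Real.tsum_le_of_sum_le (fun _ => sq_nonneg _)
    intro S
    have h := sq_bb hD hJ0 (S.image (fun n => n + N + 1)) (by
      intro n hn
      obtain ⟨k, _, hk⟩ := Finset.mem_image.1 hn
      have h1 : ¬ n ≤ N := by
        omega
      rw [hN, le_floor_iff hc hJ0.le] at h1
      exact (not_le.1 h1).le)
    rw [Finset.sum_image (fun a _ b _ h => by omega)] at h
    exact h
  have hdiag : |(1 / 2) * (∑ n ∈ F, bb m c α n ^ 2) * ((U2 ^ (q + 1) - U1 ^ (q + 1)) / (q + 1)) -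
      σ / (2 * (q + 1)) * (U2 ^ (q + 1) - U1 ^ (q + 1))| ≤ (M * 2 ^ (q + 1)) * (U ^ (q + 1) * J ^ (-(1 / 4) : ℝ)) := by
    have hq0 : 0 < q + 1 := by linarith
    have e7 : (1 / 2) * (∑ n ∈ F, bb m c α n ^ 2) * ((U2 ^ (q + 1) - U1 ^ (q + 1)) / (q + 1)) -
      σ / (2 * (q + 1)) * (U2 ^ (q + 1) - U1 ^ (q + 1)) = -((σ - ∑ n ∈ F, bb m c α n ^ 2) * ((U2 ^ (q + 1) - U1 ^ (q + 1)) / (2 * (q + 1)))) := by
      field_simp
      ring
    rw [e7, abs_neg, abs_mul, abs_of_nonneg htail.1]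
    have h1 : U1 ^ (q + 1) ≤ U2 ^ (q + 1) := Real.rpow_le_rpow hU10.le hU12 hq0.le
    have h2 : 0 < U1 ^ (q + 1) := by positivity
    have h3 : U2 ^ (q + 1) ≤ 2 ^ (q + 1) * U ^ (q + 1) := by
      rw [← Real.mul_rpow (by norm_num) hU0.le]
      exact Real.rpow_le_rpow hU20.le hU2 hq0.le
    have h4 : |(U2 ^ (q + 1) - U1 ^ (q + 1)) / (2 * (q + 1))| ≤ 2 ^ (q + 1) * U ^ (q + 1) := by
      rw [abs_of_nonneg (by
        apply div_nonneg <;> linarith)]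
      rw [div_le_iff₀ (by positivity)]
      have h5 : (1 : ℝ) ≤ 2 * (q + 1) := by linarith
      have h6 : 0 ≤ 2 ^ (q + 1) * U ^ (q + 1) := by positivity
      nlinarith
    calc (σ - ∑ n ∈ F, bb m c α n ^ 2) * |(U2 ^ (q + 1) - U1 ^ (q + 1)) / (2 * (q + 1))|
        ≤ (J ^ (-(1 / 4) : ℝ) * M) * (2 ^ (q + 1) * U ^ (q + 1)) := by
          have := htail.2
          have := htail.1
          gcongr
      _ = _ := by ring
  rw [e1]
  rw [← hq1]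
  have hJ5 : 0 ≤ U ^ (4 * (m : ℝ) + 3) * J ^ (4 * (m : ℝ) + 5 / 2) := by positivity
  have hJ6 : 0 ≤ U ^ (q + 1) * J ^ (-(1 / 4) : ℝ) := by positivity
  have hρ2 : 0 ≤ ρ ^ 2 := sq_nonneg _
  have hfin : |(∫ u in U1..U2, u ^ q * hS F (bb m c α) (om m c) φ u ^ 2) - σ / (2 * (q + 1)) * (U2 ^ (q + 1) - U1 ^ (q + 1))| ≤
      ((2 * q + 5) * KD * 2 ^ (q + 1 / 2) * B ^ 2) * (U ^ (4 * (m : ℝ) + 3) * J ^ (4 * (m : ℝ) + 5 / 2)) +
      (M * 2 ^ (q + 1)) * (U ^ (q + 1) * J ^ (-(1 / 4) : ℝ)) := by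
    have h1 := hlow.trans hlow2
    have h2 := abs_sub_le (∫ u in U1..U2, u ^ q * hS F (bb m c α) (om m c) φ u ^ 2)
      ((1 / 2) * (∑ n ∈ F, bb m c α n ^ 2) * ((U2 ^ (q + 1) - U1 ^ (q + 1)) / (q + 1)))
      (σ / (2 * (q + 1)) * (U2 ^ (q + 1) - U1 ^ (q + 1)))
    linarith
  have e8 : ρ ^ 2 * (∫ u in U1..U2, u ^ q * hS F (bb m c α) (om m c) φ u ^ 2) -
      ρ ^ 2 * σ / (2 * (q + 1)) * (U2 ^ (q + 1) - U1 ^ (q + 1)) = ρ ^ 2 * ((∫ u in U1..U2, u ^ q * hS F (bb m c α) (om m c) φ u ^ 2) -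
      σ / (2 * (q + 1)) * (U2 ^ (q + 1) - U1 ^ (q + 1))) := by ring
  rw [e8, abs_mul, abs_of_nonneg hρ2]
  set X := U ^ (4 * (m : ℝ) + 3) * J ^ (4 * (m : ℝ) + 5 / 2)
  set Z := U ^ (q + 1) * J ^ (-(1 / 4) : ℝ)
  have hk1 : 0 ≤ ρ ^ 2 * ((2 * q + 5) * KD * 2 ^ (q + 1 / 2) * B ^ 2) := by positivity
  have hk2 : 0 ≤ ρ ^ 2 * (M * 2 ^ (q + 1)) := by positivity
  calc ρ ^ 2 * |(∫ u in U1..U2, u ^ q * hS F (bb m c α) (om m c) φ u ^ 2) - σ / (2 * (q + 1)) * (U2 ^ (q + 1) - U1 ^ (q + 1))|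
      ≤ ρ ^ 2 * (((2 * q + 5) * KD * 2 ^ (q + 1 / 2) * B ^ 2) * X + (M * 2 ^ (q + 1)) * Z) :=
        mul_le_mul_of_nonneg_left hfin hρ2
    _ = (ρ ^ 2 * ((2 * q + 5) * KD * 2 ^ (q + 1 / 2) * B ^ 2)) * X + (ρ ^ 2 * (M * 2 ^ (q + 1))) * Z := by ring
    _ ≤ _ := by nlinarith [mul_nonneg hk1 hJ6, mul_nonneg hk2 hJ5]

end Pool.Agent.H295.SM2
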