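import Pool.Agent.H295.SM2.Rb

set_option autoImplicit false

/-!
# TaskSM2 (helper295 for helper472): proof
-/

open MeasureTheory Set Filter Topology

namespace Pool.Agent.H295.SM2

open Pool.Agent.H469R10.HO Pool.Agent.H13R3.EM Pool.Agent.H472.Q2 Pool.Agent.H295.SM1

variable {m : ℕ} {c M : ℝ} {α : ℕ → ℝ}

/-- mean square of `GG` on pieces of dyadic intervals -/
lemma GG_ms (hD : DataSM m c M α) (hcon : ConcSM1 m c α) : ∃ C' K U₀ : ℝ, 0 < C' ∧ 0 ≤ K ∧ 4 ≤ U₀ ∧
    ∀ U U2 : ℝ, U₀ ≤ U → U ≤ U2 → U2 ≤ 2 * U →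
    |(∫ u in U..U2, u ^ (2 * m + 1) * GG m c α u ^ 2) - C' * (U2 ^ (4 * (m : ℝ) + 7 / 2) - U ^ (4 * (m : ℝ) + 7 / 2))| ≤
      K * U ^ (4 * (m : ℝ) + 7 / 2 - kp m / 8) := by
  obtain ⟨ρ, φ, C, hρ, hC, hterm⟩ := term_asymp m α
  have ht : TermB m c α ρ φ C := hterm c hD.hc
  obtain ⟨K1, U1, hK1, hU1, hR⟩ := R_bound hD hcon hρ hC ht
  obtain ⟨K2, hK2, hL⟩ := Lo_ms hD (φ := φ) hρ
  have hc := hD.hc
  have hm1 : (1 : ℝ) ≤ m := by exact_mod_cast hD.hm
  have hkp := kp_pos m
  have hkp1 : kp m ≤ 1 / 32 := by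
    unfold kp
    rw [div_le_div_iff₀ (by positivity) (by norm_num)]
    linarith
  set p : ℝ := 4 * (m : ℝ) + 7 / 2 with hp
  set σ := ∑' n, bb m c α (n + 1) ^ 2 with hσ
  have hσ0 : 0 < σ := by
    have hsum := bb_summable hD
    have h1 : 0 < bb m c α (0 + 1) ^ 2 := by
      have : bb m c α (0 + 1) ≠ 0 := by
        unfold bb
        have h2 : 0 < uu c (lamQ m) (0 + 1) := lt_of_lt_of_le hc (uu_pos hc (le_refl 1))
        have h3 : 0 < uu c (lamQ m) (0 + 1) ^ ((m : ℝ) - 1 / 4) := by positivity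
        exact mul_ne_zero hD.h1 h3.ne'
      positivity
    exact hsum.tsum_pos (fun _ => sq_nonneg _) 0 h1
  set C' := ρ ^ 2 * σ / (2 * p) with hC'
  have hC'0 : 0 < C' := by positivity
  refine ⟨C', 2 * 2 ^ (2 * m + 1) * K1 + (C' * 2 ^ p + 2 * K2) + 2 * K2, U1, hC'0, by positivity, hU1, ?_⟩
  intro U U2 hU hUU2 hU2
  have hU4 : 4 ≤ U := hU1.trans hU
  have hU0 : 0 < U := by linarith
  have hU1' : 1 ≤ U := by linarith
  have hU20 : 0 < U2 := by linarith
  set J := U ^ kp m with hJ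
  have hJ1 : 1 ≤ J := Real.one_le_rpow hU1' hkp.le
  have hJ0 : 0 < J := by linarith
  set sg : ℝ := (-1) ^ (m + 1) with hsg
  have hsg2 : sg ^ 2 = 1 := by
    rw [hsg, ← pow_mul, mul_comm, pow_mul]
    norm_num
  have hLoc := Lo_cont (m := m) (c := c) (α := α) ρ φ J
  set L : ℝ → ℝ := Lo m c α ρ φ J with hLdef
  have hR1 := hR U hU
  have hL1 := hL U hU1' J hJ1 U U2 le_rfl hUU2 hU2
  set δ := kp m / 4 with hδ
  have hδ0 : 0 < δ := by positivity
  -- bounds of the error terms of the low part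
  have hLe : U ^ (4 * (m : ℝ) + 3) * J ^ (4 * (m : ℝ) + 5 / 2) ≤ U ^ (p - δ) := by
    rw [hJ, ← Real.rpow_mul hU0.le, ← Real.rpow_add hU0]
    apply Real.rpow_le_rpow_of_exponent_le hU1'
    have : kp m * (4 * (m : ℝ) + 5 / 2) ≤ 1 / 4 := by
      unfold kp
      rw [div_mul_eq_mul_div, div_le_div_iff₀ (by positivity) (by norm_num)]
      linarith
    rw [hp, hδ]
    linarith
  have hLe2 : U ^ p * J ^ (-(1 / 4) : ℝ) = U ^ (p - δ) := by
    rw [hJ, ← Real.rpow_mul hU0.le, ← Real.rpow_add hU0]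
    congr 1
    rw [hδ]
    ring
  have hL2 : |(∫ u in U..U2, u ^ (2 * m + 1) * L u ^ 2) - C' * (U2 ^ p - U ^ p)| ≤ 2 * K2 * U ^ (p - δ) := by
    refine hL1.trans ?_
    rw [hLe2]
    calc K2 * (U ^ (4 * (m : ℝ) + 3) * J ^ (4 * (m : ℝ) + 5 / 2) + U ^ (p - δ)) ≤ K2 * (U ^ (p - δ) + U ^ (p - δ)) := by gcongr
      _ = _ := by ring
  -- integrability
  have iGG : IntervalIntegrable (fun u => u ^ (2 * m + 1) * GG m c α u ^ 2) volume U U2 :=
    GG_ii' hD (H := fun q : ℝ × ℝ => q.1 ^ (2 * m + 1) * q.2 ^ 2) (by fun_prop) hU0.le hUU2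
  have iRw : IntervalIntegrable (fun u => u ^ (2 * m + 1) * (GG m c α u - sg * L u) ^ 2) volume U U2 :=
    GG_ii' hD (H := fun q : ℝ × ℝ => q.1 ^ (2 * m + 1) * (q.2 - sg * L q.1) ^ 2)
      ((continuous_fst.pow _).mul ((continuous_snd.sub ((hLoc.comp continuous_fst).const_mul sg)).pow 2)) hU0.le hUU2
  have iR : IntervalIntegrable (fun u => (GG m c α u - sg * L u) ^ 2) volume U (2 * U) :=
    GG_ii' hD (H := fun q : ℝ × ℝ => (q.2 - sg * L q.1) ^ 2)
      ((continuous_snd.sub ((hLoc.comp continuous_fst).const_mul sg)).pow 2) hU0.le (by linarith)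
  have cLw : Continuous (fun u => u ^ (2 * m + 1) * L u ^ 2) := (continuous_pow _).mul (hLoc.pow 2)
  have iLw : IntervalIntegrable (fun u => u ^ (2 * m + 1) * L u ^ 2) volume U U2 := cLw.intervalIntegrable _ _
  -- weighted bound for the remainder
  have hRw : ∫ u in U..U2, u ^ (2 * m + 1) * (GG m c α u - sg * L u) ^ 2 ≤
      2 ^ (2 * m + 1) * K1 * U ^ (p - δ) := by
    have h1 : ∫ u in U..U2, u ^ (2 * m + 1) * (GG m c α u - sg * L u) ^ 2 ≤
        ∫ u in U..U2, (2 * U) ^ (2 * m + 1) * (GG m c α u - sg * L u) ^ 2 := by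
      apply intervalIntegral.integral_mono_on hUU2 iRw
      · apply IntervalIntegrable.const_mul
        exact iR.mono_set (by
          rw [uIcc_of_le hUU2, uIcc_of_le (by linarith)]
          exact Icc_subset_Icc le_rfl hU2)
      · intro u hu
        have hu0 : 0 ≤ u := hU0.le.trans hu.1
        have hu2 : u ≤ 2 * U := hu.2.trans hU2
        gcongr
    rw [intervalIntegral.integral_const_mul] at h1
    have h2 : ∫ u in U..U2, (GG m c α u - sg * L u) ^ 2 ≤ ∫ u in U..(2 * U), (GG m c α u - sg * L u) ^ 2 := by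
      apply intervalIntegral.integral_mono_interval le_rfl hUU2 hU2 (ae_of_all _ (fun _ => sq_nonneg _)) iR
    refine h1.trans ?_
    calc (2 * U) ^ (2 * m + 1) * ∫ u in U..U2, (GG m c α u - sg * L u) ^ 2
        ≤ (2 * U) ^ (2 * m + 1) * (K1 * U ^ (2 * (m : ℝ) + 5 / 2 - δ)) := by
          have := h2.trans hR1
          gcongr
      _ = 2 ^ (2 * m + 1) * K1 * (U ^ (2 * m + 1) * U ^ (2 * (m : ℝ) + 5 / 2 - δ)) := by rw [mul_pow]; ring
      _ = _ := by
          have : U ^ (2 * m + 1) * U ^ (2 * (m : ℝ) + 5 / 2 - δ) = U ^ (p - δ) := by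
            rw [← Real.rpow_natCast, ← Real.rpow_add hU0]
            congr 1
            rw [hp]
            push_cast
            ring
          rw [this]
  -- size of the low part
  have hLsize : ∫ u in U..U2, u ^ (2 * m + 1) * L u ^ 2 ≤ (C' * 2 ^ p + 2 * K2) * U ^ p := by
    have h1 := (abs_le.1 hL2).2
    have h2 : U2 ^ p ≤ 2 ^ p * U ^ p := by
      rw [← Real.mul_rpow (by norm_num) hU0.le]
      exact Real.rpow_le_rpow hU20.le hU2 (by positivity)
    have h3 : U ^ (p - δ) ≤ U ^ p := Real.rpow_le_rpow_of_exponent_le hU1' (by linarith)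
    have h4 : 0 ≤ U ^ p := by positivity
    have h5 : C' * (U2 ^ p - U ^ p) ≤ C' * (2 ^ p * U ^ p) := by
      apply mul_le_mul_of_nonneg_left _ hC'0.le
      linarith
    have h6 : 2 * K2 * U ^ (p - δ) ≤ 2 * K2 * U ^ p := by gcongr
    linarith
  -- comparison of GG and L
  set ε := U ^ (-(δ / 2)) with hε
  have hε0 : 0 < ε := by positivity
  have hε1 : ε * ε⁻¹ = 1 := mul_inv_cancel₀ hε0.ne'
  have hpt : ∀ u, |GG m c α u ^ 2 - L u ^ 2| ≤ (1 + ε⁻¹) * (GG m c α u - sg * L u) ^ 2 + ε * L u ^ 2 := by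
    intro u
    set g := GG m c α u
    set l := L u
    set r := g - sg * l with hr
    have e1 : g ^ 2 - l ^ 2 = r ^ 2 + 2 * (sg * l) * r := by
      have : l ^ 2 = (sg * l) ^ 2 := by rw [mul_pow, hsg2, one_mul]
      rw [this, hr]
      ring
    have e2 : l ^ 2 = (sg * l) ^ 2 := by rw [mul_pow, hsg2, one_mul]
    rw [e1, e2]
    set s := sg * l
    have h1 : 2 * |s| * |r| ≤ ε⁻¹ * r ^ 2 + ε * s ^ 2 := by
      have h2 : 0 ≤ ε⁻¹ * (|r| - ε * |s|) ^ 2 := by positivity
      have h3 : ε⁻¹ * (|r| - ε * |s|) ^ 2 = ε⁻¹ * r ^ 2 - 2 * (ε * ε⁻¹) * |r| * |s| + (ε * ε⁻¹) * ε * s ^ 2 := by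
        rw [← sq_abs r, ← sq_abs s]
        ring
      rw [h3, hε1] at h2
      linarith
    calc |r ^ 2 + 2 * s * r| ≤ |r ^ 2| + |2 * s * r| := abs_add_le _ _
      _ = r ^ 2 + 2 * |s| * |r| := by
        rw [abs_of_nonneg (sq_nonneg r), abs_mul, abs_mul, abs_two]
      _ ≤ _ := by linarith
  have hcomp : |(∫ u in U..U2, u ^ (2 * m + 1) * GG m c α u ^ 2) - ∫ u in U..U2, u ^ (2 * m + 1) * L u ^ 2| ≤
      (1 + ε⁻¹) * (∫ u in U..U2, u ^ (2 * m + 1) * (GG m c α u - sg * L u) ^ 2) +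
      ε * ∫ u in U..U2, u ^ (2 * m + 1) * L u ^ 2 := by
    rw [← intervalIntegral.integral_sub iGG iLw, ← intervalIntegral.integral_const_mul, ← intervalIntegral.integral_const_mul,
      ← intervalIntegral.integral_add (iRw.const_mul _) (iLw.const_mul _), ← Real.norm_eq_abs]
    apply intervalIntegral.norm_integral_le_of_norm_le hUU2
    · refine ae_of_all _ (fun u hu => ?_)
      have hu0 : 0 < u := lt_trans hU0 hu.1
      rw [← mul_sub, norm_mul, Real.norm_of_nonneg (by positivity), Real.norm_eq_abs]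
      calc u ^ (2 * m + 1) * |GG m c α u ^ 2 - L u ^ 2| ≤
            u ^ (2 * m + 1) * ((1 + ε⁻¹) * (GG m c α u - sg * L u) ^ 2 + ε * L u ^ 2) := by
            have := hpt u
            gcongr
        _ = _ := by ring
    · exact (iRw.const_mul _).add (iLw.const_mul _)
  have hεi : ε⁻¹ = U ^ (δ / 2) := by
    rw [hε, Real.rpow_neg hU0.le, inv_inv]
  have hge : 1 ≤ U ^ (δ / 2) := Real.one_le_rpow hU1' (by positivity)
  have hcomp2 : |(∫ u in U..U2, u ^ (2 * m + 1) * GG m c α u ^ 2) - ∫ u in U..U2, u ^ (2 * m + 1) * L u ^ 2| ≤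
      (2 * 2 ^ (2 * m + 1) * K1 + (C' * 2 ^ p + 2 * K2)) * U ^ (p - δ / 2) := by
    refine hcomp.trans ?_
    rw [hεi]
    have e1 : U ^ (δ / 2) * U ^ (p - δ) = U ^ (p - δ / 2) := by
      rw [← Real.rpow_add hU0]
      congr 1
      ring
    have e2 : ε * U ^ p = U ^ (p - δ / 2) := by
      rw [hε, ← Real.rpow_add hU0]
      congr 1
      ring
    calc (1 + U ^ (δ / 2)) * (∫ u in U..U2, u ^ (2 * m + 1) * (GG m c α u - sg * L u) ^ 2) +
          ε * ∫ u in U..U2, u ^ (2 * m + 1) * L u ^ 2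
        ≤ (U ^ (δ / 2) + U ^ (δ / 2)) * (2 ^ (2 * m + 1) * K1 * U ^ (p - δ)) + ε * ((C' * 2 ^ p + 2 * K2) * U ^ p) := by
          have h0 : 0 ≤ ∫ u in U..U2, u ^ (2 * m + 1) * (GG m c α u - sg * L u) ^ 2 := by
            apply intervalIntegral.integral_nonneg hUU2
            intro u hu
            have hu0 : 0 ≤ u := hU0.le.trans hu.1
            positivity
          gcongr
      _ = 2 * 2 ^ (2 * m + 1) * K1 * (U ^ (δ / 2) * U ^ (p - δ)) + (C' * 2 ^ p + 2 * K2) * (ε * U ^ p) := by ring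
      _ = _ := by rw [e1, e2]; ring
  have h5 : U ^ (p - δ) ≤ U ^ (p - δ / 2) := Real.rpow_le_rpow_of_exponent_le hU1' (by linarith)
  have h6 : p - kp m / 8 = p - δ / 2 := by rw [hδ]; ring
  rw [h6]
  have h7 := abs_sub_le (∫ u in U..U2, u ^ (2 * m + 1) * GG m c α u ^ 2) (∫ u in U..U2, u ^ (2 * m + 1) * L u ^ 2)
    (C' * (U2 ^ p - U ^ p))
  have h8 : 2 * K2 * U ^ (p - δ) ≤ 2 * K2 * U ^ (p - δ / 2) := by gcongr
  calc _ ≤ _ := h7
    _ ≤ (2 * 2 ^ (2 * m + 1) * K1 + (C' * 2 ^ p + 2 * K2)) * U ^ (p - δ / 2) + 2 * K2 * U ^ (p - δ / 2) :=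
        add_le_add hcomp2 (hL2.trans h8)
    _ = _ := by ring

/-- dyadic summation -/
lemma dyadic {E : ℝ → ℝ} {K s U₀ : ℝ} (hK : 0 ≤ K) (hs : 1 ≤ s) (hU₀ : 1 ≤ U₀)
    (h : ∀ U V : ℝ, U₀ ≤ U → U ≤ V → V ≤ 2 * U → |E V - E U| ≤ K * U ^ s) :
    ∀ V : ℝ, U₀ ≤ V → |E V| ≤ (|E U₀| + K) * V ^ s := by
  have key : ∀ k : ℕ, ∀ V : ℝ, U₀ ≤ V → V ≤ 2 ^ k * U₀ → |E V| ≤ (|E U₀| + K) * V ^ s := by
    intro k
    induction k with
    | zero =>
      intro V hV hV2
      have : V = U₀ := by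
        rw [pow_zero, one_mul] at hV2
        exact le_antisymm hV2 hV
      rw [this]
      have h1 : 1 ≤ U₀ ^ s := Real.one_le_rpow hU₀ (by linarith)
      have h2 : 0 ≤ |E U₀| := abs_nonneg _
      nlinarith
    | succ k ih =>
      intro V hV hV2
      have hV0 : 0 < V := by linarith
      rcases le_or_gt V (2 * U₀) with h2 | h2
      · have h3 := h U₀ V le_rfl hV h2
        have h4 : |E V| ≤ |E U₀| + |E V - E U₀| := by
          have := abs_add_le (E U₀) (E V - E U₀)
          rwa [add_sub_cancel] at this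
        have h5 : 1 ≤ U₀ ^ s := Real.one_le_rpow hU₀ (by linarith)
        have h6 : U₀ ^ s ≤ V ^ s := Real.rpow_le_rpow (by linarith) hV (by linarith)
        calc |E V| ≤ |E U₀| * 1 + K * U₀ ^ s := by linarith
          _ ≤ |E U₀| * V ^ s + K * V ^ s := by
            have := h5.trans h6
            gcongr
          _ = _ := by ring
      · have h3 : U₀ ≤ V / 2 := by linarith
        have h4 : V / 2 ≤ 2 ^ k * U₀ := by
          rw [pow_succ] at hV2
          linarith
        have h5 := ih (V / 2) h3 h4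
        have h6 := h (V / 2) V h3 (by linarith) (by linarith)
        have h7 : |E V| ≤ |E (V / 2)| + |E V - E (V / 2)| := by
          have := abs_add_le (E (V / 2)) (E V - E (V / 2))
          rwa [add_sub_cancel] at this
        have h8 : (V / 2) ^ s ≤ V ^ s / 2 := by
          rw [Real.div_rpow hV0.le (by norm_num)]
          apply div_le_div_of_nonneg_left (by positivity) (by norm_num)
          calc (2 : ℝ) = 2 ^ (1 : ℝ) := (Real.rpow_one 2).symm
            _ ≤ 2 ^ s := Real.rpow_le_rpow_of_exponent_le (by norm_num) hs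
        have h9 : 0 ≤ |E U₀| := abs_nonneg _
        calc |E V| ≤ (|E U₀| + K) * (V / 2) ^ s + K * (V / 2) ^ s := by linarith
          _ = (|E U₀| + 2 * K) * (V / 2) ^ s := by ring
          _ ≤ (|E U₀| + 2 * K) * (V ^ s / 2) := by gcongr
          _ = (|E U₀| / 2 + K) * V ^ s := by ring
          _ ≤ _ := by
            have : 0 < V ^ s := by positivity
            gcongr
            linarith
  intro V hV
  obtain ⟨k, hk⟩ := pow_unbounded_of_one_lt (V / U₀) (one_lt_two)
  apply key k V hV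
  rw [div_lt_iff₀ (by linarith)] at hk
  exact hk.le

/-- relation between `EE` and `GG` -/
lemma EE_eq (hc : 0 < c) {u : ℝ} (hu : 0 < u) :
    EE (fun n => α n * (n : ℝ) ^ kapQ m) ((u / c) ^ (2 * m + 2)) = (c ^ (2 * m + 1))⁻¹ * GG m c α u := by
  unfold EE GG
  have e1 : (u / c) ^ lamQ m = (u / c) ^ (2 * m + 2) := by
    unfold lamQ
    rw [← Real.rpow_natCast]
    push_cast
    rfl
  rw [e1, Finset.mul_sum]
  apply Finset.sum_congr rfl
  intro n _
  unfold uu
  rw [mul_pow]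
  have e2 : ((n : ℝ) ^ (1 / lamQ m)) ^ (2 * m + 1) = (n : ℝ) ^ kapQ m := by
    rw [← Real.rpow_natCast, ← Real.rpow_mul (Nat.cast_nonneg n)]
    congr 1
    unfold lamQ kapQ
    push_cast
    ring
  rw [e2]
  have : c ^ (2 * m + 1) ≠ 0 := by positivity
  field_simp

/-- change of variables -/
lemma change (hc : 0 < c) {V : ℝ} (hV : c ≤ V) :
    ∫ x in (1:ℝ)..((V / c) ^ (2 * m + 2)), (EE (fun n => α n * (n : ℝ) ^ kapQ m) x) ^ 2 =
      ((2 * m + 2) / (c * c ^ (2 * m + 1) * (c ^ (2 * m + 1)) ^ 2)) * ∫ u in c..V, u ^ (2 * m + 1) * GG m c α u ^ 2 := by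
  have hV0 : 0 < V := lt_of_lt_of_le hc hV
  have h1 : (1 : ℝ) ≤ (V / c) ^ (2 * m + 2) := by
    apply one_le_pow₀
    rw [one_le_div hc]
    exact hV
  rw [intervalIntegral.integral_of_le h1, intervalIntegral.integral_of_le hV]
  set f : ℝ → ℝ := fun u => (u / c) ^ (2 * m + 2) with hf
  have himg : f '' Ioc c V = Ioc 1 ((V / c) ^ (2 * m + 2)) := by
    ext x
    constructor
    · rintro ⟨u, hu, rfl⟩
      have hu0 : 0 < u := lt_trans hc hu.1
      constructor
      · simp only [hf]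
        apply one_lt_pow₀ _ (by omega)
        rw [one_lt_div hc]
        exact hu.1
      · simp only [hf]
        have := hu.2
        gcongr
    · intro hx
      have hx0 : 0 < x := lt_trans one_pos hx.1
      refine ⟨c * x ^ (1 / (2 * (m : ℝ) + 2)), ?_, ?_⟩
      · have hp : 0 < 1 / (2 * (m : ℝ) + 2) := by positivity
        constructor
        · have : 1 < x ^ (1 / (2 * (m : ℝ) + 2)) := Real.one_lt_rpow hx.1 hp
          nlinarith
        · have h2 := Real.rpow_le_rpow hx0.le hx.2 hp.le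
          have h3 : ((V / c) ^ (2 * m + 2)) ^ (1 / (2 * (m : ℝ) + 2)) = V / c := by
            rw [← Real.rpow_natCast, ← Real.rpow_mul (by positivity)]
            push_cast
            rw [mul_one_div_cancel (by positivity), Real.rpow_one]
          rw [h3] at h2
          calc c * x ^ (1 / (2 * (m : ℝ) + 2)) ≤ c * (V / c) := by gcongr
            _ = V := by field_simp
      · simp only [hf]
        rw [mul_div_cancel_left₀ _ hc.ne', ← Real.rpow_natCast, ← Real.rpow_mul hx0.le]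
        push_cast
        rw [one_div_mul_cancel (by positivity), Real.rpow_one]
  have hder : ∀ u ∈ Ioc c V, HasDerivWithinAt f ((2 * (m : ℝ) + 2) * (u / c) ^ (2 * m + 1) * (1 / c)) (Ioc c V) u := by
    intro u _
    have h2 : HasDerivAt (fun u : ℝ => u / c) (1 / c) u := (hasDerivAt_id u).div_const c
    have h3 := h2.pow (2 * m + 2)
    refine (h3.congr_deriv ?_).hasDerivWithinAt
    push_cast
    rfl
  have hinj : InjOn f (Ioc c V) := by
    intro a ha b hb hab
    have ha0 : 0 < a := lt_trans hc ha.1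
    have hb0 : 0 < b := lt_trans hc hb.1
    have h2 : a / c = b / c := by
      have := (pow_left_inj₀ (by positivity : 0 ≤ a / c) (by positivity : 0 ≤ b / c) (n := 2 * m + 2) (by omega)).1 hab
      exact this
    have := congrArg (fun t => t * c) h2
    simpa [hc.ne'] using this
  rw [← himg, integral_image_eq_integral_abs_deriv_smul measurableSet_Ioc hder hinj, ← integral_const_mul]
  apply setIntegral_congr_fun measurableSet_Ioc
  intro u hu
  have hu0 : 0 < u := lt_trans hc hu.1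
  simp only [smul_eq_mul, hf]
  rw [EE_eq hc hu0, abs_of_nonneg (by positivity)]
  rw [div_pow]
  field_simp

theorem taskSM2 : TaskSM2 := by
  intro m c M α hD hcon
  obtain ⟨C', K, U₀, hC', hK, hU₀, hms⟩ := GG_ms hD hcon
  have hc := hD.hc
  have hm1 : (1 : ℝ) ≤ m := by exact_mod_cast hD.hm
  have hkp := kp_pos m
  have hkp1 : kp m ≤ 1 / 32 := by
    unfold kp
    rw [div_le_div_iff₀ (by positivity) (by norm_num)]
    linarith
  set p : ℝ := 4 * (m : ℝ) + 7 / 2 with hp
  set s : ℝ := p - kp m / 8 with hs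
  have hs1 : 1 ≤ s := by rw [hs, hp]; linarith
  set I : ℝ → ℝ := fun V => ∫ u in c..V, u ^ (2 * m + 1) * GG m c α u ^ 2 with hI
  set E : ℝ → ℝ := fun V => I V - C' * V ^ p with hE
  set W₀ := max U₀ c with hW₀
  have hW4 : 4 ≤ W₀ := hU₀.trans (le_max_left _ _)
  have hWc : c ≤ W₀ := le_max_right _ _
  have hii : ∀ a b : ℝ, 0 ≤ a → a ≤ b → IntervalIntegrable (fun u => u ^ (2 * m + 1) * GG m c α u ^ 2) volume a b :=
    fun a b ha hab => GG_ii' hD (H := fun q : ℝ × ℝ => q.1 ^ (2 * m + 1) * q.2 ^ 2) (by fun_prop) ha hab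
  have hstep : ∀ U V : ℝ, W₀ ≤ U → U ≤ V → V ≤ 2 * U → |E V - E U| ≤ K * U ^ s := by
    intro U V hU hUV hV
    have h1 := hms U V ((le_max_left _ _).trans hU) hUV hV
    have hU0 : 0 < U := by linarith
    have h2 : I V - I U = ∫ u in U..V, u ^ (2 * m + 1) * GG m c α u ^ 2 := by
      simp only [hI]
      rw [← intervalIntegral.integral_add_adjacent_intervals (hii c U hc.le (hWc.trans hU)) (hii U V hU0.le hUV)]
      ring
    have h3 : E V - E U = (∫ u in U..V, u ^ (2 * m + 1) * GG m c α u ^ 2) - C' * (V ^ p - U ^ p) := by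
      rw [← h2]
      simp only [hE]
      ring
    rw [h3]
    exact h1
  have hbig := dyadic hK hs1 (by linarith : 1 ≤ W₀) hstep
  set K' := |E W₀| + K with hK'
  have hK'0 : 0 ≤ K' := by positivity
  -- small values
  have hsmall : ∀ V : ℝ, c ≤ V → V ≤ W₀ → |E V| ≤ I W₀ + C' * W₀ ^ p := by
    intro V hV hVW
    have hV0 : 0 < V := lt_of_lt_of_le hc hV
    have h1 : 0 ≤ I V := by
      simp only [hI]
      apply intervalIntegral.integral_nonneg hV
      intro u hu
      have : 0 ≤ u := hc.le.trans hu.1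
      positivity
    have h2 : I V ≤ I W₀ := by
      simp only [hI]
      apply intervalIntegral.integral_mono_interval le_rfl hV hVW
      · refine (ae_restrict_mem measurableSet_Ioc).mono ?_
        intro u hu
        have : 0 ≤ u := hc.le.trans hu.1.le
        show 0 ≤ u ^ (2 * m + 1) * GG m c α u ^ 2
        positivity
      · exact hii c W₀ hc.le (hV.trans hVW)
    have h3 : V ^ p ≤ W₀ ^ p := Real.rpow_le_rpow hV0.le hVW (by positivity)
    have h4 : 0 ≤ V ^ p := by positivity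
    simp only [hE]
    rw [abs_le]
    constructor
    · nlinarith
    · nlinarith
  have hall : ∀ V : ℝ, c ≤ V → |E V| ≤ (I W₀ + C' * W₀ ^ p) + K' * V ^ s := by
    intro V hV
    have hV0 : 0 < V := lt_of_lt_of_le hc hV
    have hI0 : 0 ≤ I W₀ := by
      simp only [hI]
      apply intervalIntegral.integral_nonneg hWc
      intro u hu
      have : 0 ≤ u := hc.le.trans hu.1
      positivity
    have h1 : 0 ≤ C' * W₀ ^ p := by positivity
    have h2 : 0 ≤ K' * V ^ s := by positivity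
    rcases le_total V W₀ with h | h
    · have := hsmall V hV h
      linarith
    · have := hbig V h
      linarith
  -- back to x
  set k0 : ℝ := (2 * m + 2) / (c * c ^ (2 * m + 1) * (c ^ (2 * m + 1)) ^ 2) with hk0
  have hk00 : 0 < k0 := by positivity
  have hI0 : 0 ≤ I W₀ := by
    simp only [hI]
    apply intervalIntegral.integral_nonneg hWc
    intro u hu
    have : 0 ≤ u := hc.le.trans hu.1
    positivity
  set lam : ℝ := 2 * (m : ℝ) + 2 with hlam
  have hlam0 : 0 < lam := by positivity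
  refine ⟨k0 * C' * c ^ p, kp m / 8 / lam, k0 * ((I W₀ + C' * W₀ ^ p) + K' * c ^ s), by positivity, by positivity, ?_⟩
  intro T hT
  have hT0 : 0 < T := by linarith
  set V : ℝ := c * T ^ (1 / lam) with hV
  have hVc : c ≤ V := by
    have : 1 ≤ T ^ (1 / lam) := Real.one_le_rpow hT (by positivity)
    rw [hV]
    nlinarith
  have hV0 : 0 < V := lt_of_lt_of_le hc hVc
  have hTV : (V / c) ^ (2 * m + 2) = T := by
    rw [hV, mul_div_cancel_left₀ _ hc.ne', ← Real.rpow_natCast, ← Real.rpow_mul hT0.le]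
    push_cast
    rw [← hlam, one_div_mul_cancel hlam0.ne', Real.rpow_one]
  have hch := change (m := m) (α := α) hc hVc
  rw [hTV] at hch
  rw [hch]
  have hVp : V ^ p = c ^ p * T ^ (2 - 1 / (4 * (m : ℝ) + 4)) := by
    rw [hV, Real.mul_rpow hc.le (by positivity), ← Real.rpow_mul hT0.le]
    congr 2
    rw [hp, hlam]
    have : 4 * (m : ℝ) + 4 = 2 * (2 * m + 2) := by ring
    rw [this]
    have h2 : (2 * (m : ℝ) + 2) ≠ 0 := by positivity
    field_simp
    ring
  have hVs : V ^ s = c ^ s * T ^ (2 - 1 / (4 * (m : ℝ) + 4) - kp m / 8 / lam) := by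
    rw [hV, Real.mul_rpow hc.le (by positivity), ← Real.rpow_mul hT0.le]
    congr 2
    rw [hs, hp, hlam]
    have : 4 * (m : ℝ) + 4 = 2 * (2 * m + 2) := by ring
    rw [this]
    have h2 : (2 * (m : ℝ) + 2) ≠ 0 := by positivity
    field_simp
    ring
  have h1 := hall V hVc
  have e1 : k0 * (∫ u in c..V, u ^ (2 * m + 1) * GG m c α u ^ 2) - k0 * C' * c ^ p * T ^ (2 - 1 / (4 * (m : ℝ) + 4)) =
      k0 * E V := by
    simp only [hE, hI]
    rw [hVp]
    ring
  rw [e1, abs_mul, abs_of_pos hk00]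
  have hex : 0 ≤ 2 - 1 / (4 * (m : ℝ) + 4) - kp m / 8 / lam := by
    have a1 : 1 / (4 * (m : ℝ) + 4) ≤ 1 := by
      rw [div_le_one (by positivity)]
      linarith
    have a2 : kp m / 8 / lam ≤ 1 := by
      rw [div_le_one hlam0]
      rw [hlam]
      linarith
    linarith
  have hT1 : 1 ≤ T ^ (2 - 1 / (4 * (m : ℝ) + 4) - kp m / 8 / lam) := Real.one_le_rpow hT hex
  have h2 : 0 ≤ I W₀ + C' * W₀ ^ p := by positivity
  calc k0 * |E V| ≤ k0 * ((I W₀ + C' * W₀ ^ p) * 1 + K' * V ^ s) := by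
        rw [mul_one]
        gcongr
    _ ≤ k0 * ((I W₀ + C' * W₀ ^ p) * T ^ (2 - 1 / (4 * (m : ℝ) + 4) - kp m / 8 / lam) +
        K' * (c ^ s * T ^ (2 - 1 / (4 * (m : ℝ) + 4) - kp m / 8 / lam))) := by
        rw [hVs]
        gcongr
    _ = _ := by ring

end Pool.Agent.H295.SM2
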