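import Pool.Agent.H295.SM2.Low

set_option autoImplicit false

/-!
# TaskSM2, part 7: `GG` is close to the low part in mean square
-/

open MeasureTheory Set Filter Topology

namespace Pool.Agent.H295.SM2

open Pool.Agent.H469R10.HO Pool.Agent.H13R3.EM Pool.Agent.H472.Q2 Pool.Agent.H295.SM1

variable {m : ℕ} {c M : ℝ} {α : ℕ → ℝ}

/-- interval integrability of continuous expressions of `GG` -/
lemma GG_ii' (hD : DataSM m c M α) {H : ℝ × ℝ → ℝ} (hH : Continuous H) {a b : ℝ} (ha : 0 ≤ a) (hab : a ≤ b) :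
    IntervalIntegrable (fun u => H (u, GG m c α u)) volume a b := by
  have hc := hD.hc
  set B := ∑' n, |α n| with hB
  have hB0 : 0 ≤ B := tsum_nonneg (fun _ => abs_nonneg _)
  set R := B * b ^ (2 * m + 1) with hR
  have hb : 0 ≤ b := ha.trans hab
  obtain ⟨C, hC⟩ := (isCompact_Icc (a := a) (b := b)).prod (isCompact_Icc (a := -R) (b := R)) |>.exists_bound_of_continuousOn
    (f := H) hH.continuousOn
  rw [intervalIntegrable_iff_integrableOn_Ioc_of_le hab]
  apply Measure.integrableOn_of_bounded (M := C)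
  · simp
  · apply Measurable.aestronglyMeasurable
    exact hH.measurable.comp (measurable_id.prodMk GG_meas)
  · refine (ae_restrict_mem measurableSet_Ioc).mono ?_
    intro u hu
    apply hC
    have hu0 : 0 ≤ u := ha.trans hu.1.le
    have h1 := GG_bound (m := m) hc hD.hs hu0
    have h2 : B * u ^ (2 * m + 1) ≤ R := by
      have := hu.2
      rw [hR]
      gcongr
    have h3 := abs_le.1 (h1.trans h2)
    exact ⟨⟨hu.1.le, hu.2⟩, ⟨h3.1, h3.2⟩⟩

/-- exponent of the cutoff -/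
noncomputable def kp (m : ℕ) : ℝ := 1 / (16 * (m : ℝ) + 16)

lemma kp_pos (m : ℕ) : 0 < kp m := by unfold kp; positivity

lemma R_bound (hD : DataSM m c M α) (hcon : ConcSM1 m c α) {ρ φ C : ℝ} (hρ : 0 < ρ) (hC : 0 ≤ C) (ht : TermB m c α ρ φ C) :
    ∃ K U₀ : ℝ, 0 ≤ K ∧ 4 ≤ U₀ ∧ ∀ U : ℝ, U₀ ≤ U →
      ∫ u in U..(2 * U), (GG m c α u - (-1) ^ (m + 1) * Lo m c α ρ φ (U ^ kp m) u) ^ 2 ≤
        K * U ^ (2 * (m : ℝ) + 5 / 2 - kp m / 4) := by
  obtain ⟨ψ, K1, U1, hψ, hψ0, hψ1, hU1, hI1⟩ := hcon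
  obtain ⟨K2, hK2, hI2⟩ := D_bound hD hC ht
  obtain ⟨K3, hK3, hI3⟩ := Lo_lip hD (φ := φ) hρ
  have hc := hD.hc
  have hm1 : (1 : ℝ) ≤ m := by exact_mod_cast hD.hm
  have hkp := kp_pos m
  have hkp1 : kp m ≤ 1 / 32 := by
    unfold kp
    rw [div_le_div_iff₀ (by positivity) (by norm_num)]
    linarith
  refine ⟨3 * (|K1| + 2 * K2 + K3 ^ 2), max (max 4 U1) (2 / c), by positivity, ?_, ?_⟩
  · exact le_trans (le_max_left _ _) (le_max_left _ _)
  intro U hU
  have hU4 : 4 ≤ U := le_trans (le_trans (le_max_left _ _) (le_max_left _ _)) hU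
  have hUU1 : U1 ≤ U := le_trans (le_trans (le_max_right _ _) (le_max_left _ _)) hU
  have hUc : 2 / c ≤ U := le_trans (le_max_right _ _) hU
  have hU0 : 0 < U := by linarith
  have hU1' : 1 ≤ U := by linarith
  set J := U ^ kp m with hJ
  have hJ1 : 1 ≤ J := Real.one_le_rpow hU1' hkp.le
  have hJ0 : 0 < J := by linarith
  set Y := U ^ (7 / 8 : ℝ) with hY
  set θ := U ^ (1 / 10 : ℝ) with hθ
  have hJY : J ≤ Y := Real.rpow_le_rpow_of_exponent_le hU1' (by linarith)
  have hθ1 : 1 ≤ θ := Real.one_le_rpow hU1' (by norm_num)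
  have hθ0 : 0 ≤ θ := by linarith
  have hθU : 2 * θ ≤ U := by
    have h1 : θ ≤ U ^ (1 / 2 : ℝ) := Real.rpow_le_rpow_of_exponent_le hU1' (by norm_num)
    have h2 : (2 : ℝ) ≤ U ^ (1 / 2 : ℝ) := by
      have : (4 : ℝ) ^ (1 / 2 : ℝ) ≤ U ^ (1 / 2 : ℝ) := Real.rpow_le_rpow (by norm_num) hU4 (by norm_num)
      have e : (4 : ℝ) ^ (1 / 2 : ℝ) = 2 := by
        rw [show (4 : ℝ) = 2 ^ (2 : ℝ) by norm_num, ← Real.rpow_mul (by norm_num)]
        norm_num
      linarith
    have h3 : U ^ (1 / 2 : ℝ) * U ^ (1 / 2 : ℝ) = U := by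
      rw [← Real.rpow_add hU0]
      norm_num
    nlinarith
  set sg : ℝ := (-1) ^ (m + 1) with hsg
  have hsg2 : sg ^ 2 = 1 := by
    rw [hsg, ← pow_mul, mul_comm, pow_mul]
    norm_num
  have hMSc := MS_cont (m := m) (c := c) (α := α) Y
  have hLoc := Lo_cont (m := m) (c := c) (α := α) ρ φ J
  -- the three functions
  set f1 : ℝ → ℝ := fun u => GG m c α u - sg * ∫ v in (0:ℝ)..1, ψ v * MS m c α Y (u - θ * v) with hf1
  set D : ℝ → ℝ := fun x => MS m c α Y x - Lo m c α ρ φ J x with hDdef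
  have hDc : Continuous D := hMSc.sub hLoc
  set f2 : ℝ → ℝ := fun u => ∫ v in (0:ℝ)..1, ψ v * D (u - θ * v) with hf2
  set f3 : ℝ → ℝ := fun u => ∫ v in (0:ℝ)..1, ψ v * (Lo m c α ρ φ J (u - θ * v) - Lo m c α ρ φ J u) with hf3
  have cMS : Continuous (fun u => ∫ v in (0:ℝ)..1, ψ v * MS m c α Y (u - θ * v)) := by
    have : Continuous (Function.uncurry (fun u v : ℝ => ψ v * MS m c α Y (u - θ * v))) := by
      unfold Function.uncurry
      fun_prop
    exact intervalIntegral.continuous_parametric_intervalIntegral_of_continuous' (μ := volume) this 0 1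
  have c2 : Continuous f2 := by
    have : Continuous (Function.uncurry (fun u v : ℝ => ψ v * D (u - θ * v))) := by
      unfold Function.uncurry
      fun_prop
    exact intervalIntegral.continuous_parametric_intervalIntegral_of_continuous' (μ := volume) this 0 1
  have c3 : Continuous f3 := by
    have : Continuous (Function.uncurry (fun u v : ℝ => ψ v * (Lo m c α ρ φ J (u - θ * v) - Lo m c α ρ φ J u))) := by
      unfold Function.uncurry
      fun_prop
    exact intervalIntegral.continuous_parametric_intervalIntegral_of_continuous' (μ := volume) this 0 1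
  have hdec : ∀ u, GG m c α u - sg * Lo m c α ρ φ J u = f1 u + sg * f2 u + sg * f3 u := by
    intro u
    have i1 : IntervalIntegrable (fun v => ψ v * MS m c α Y (u - θ * v)) volume 0 1 := by
      apply Continuous.intervalIntegrable; fun_prop
    have i2 : IntervalIntegrable (fun v => ψ v * Lo m c α ρ φ J (u - θ * v)) volume 0 1 := by
      apply Continuous.intervalIntegrable; fun_prop
    have i3 : IntervalIntegrable (fun v => ψ v * Lo m c α ρ φ J u) volume 0 1 := by
      apply Continuous.intervalIntegrable; fun_prop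
    have a2 : f2 u = (∫ v in (0:ℝ)..1, ψ v * MS m c α Y (u - θ * v)) - ∫ v in (0:ℝ)..1, ψ v * Lo m c α ρ φ J (u - θ * v) := by
      rw [← intervalIntegral.integral_sub i1 i2]
      apply intervalIntegral.integral_congr
      intro v _
      simp only [hDdef]
      ring
    have a3 : f3 u = (∫ v in (0:ℝ)..1, ψ v * Lo m c α ρ φ J (u - θ * v)) - Lo m c α ρ φ J u := by
      have : Lo m c α ρ φ J u = ∫ v in (0:ℝ)..1, ψ v * Lo m c α ρ φ J u := by
        rw [intervalIntegral.integral_mul_const, hψ1, one_mul]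
      conv_rhs => rw [this]
      rw [← intervalIntegral.integral_sub i2 i3]
      apply intervalIntegral.integral_congr
      intro v _
      simp only
      ring
    rw [a2, a3]
    simp only [hf1]
    ring
  have hU2 : U ≤ 2 * U := by linarith
  have i1 : IntervalIntegrable (fun u => f1 u ^ 2) volume U (2 * U) := by
    have := GG_ii' hD (H := fun p : ℝ × ℝ => (p.2 - sg * ∫ v in (0:ℝ)..1, ψ v * MS m c α Y (p.1 - θ * v)) ^ 2)
      ((continuous_snd.sub ((cMS.comp continuous_fst).const_mul sg)).pow 2) hU0.le hU2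
    exact this
  have i2 : IntervalIntegrable (fun u => f2 u ^ 2) volume U (2 * U) := (c2.pow 2).intervalIntegrable _ _
  have i3 : IntervalIntegrable (fun u => f3 u ^ 2) volume U (2 * U) := (c3.pow 2).intervalIntegrable _ _
  have iL : IntervalIntegrable (fun u => (GG m c α u - sg * Lo m c α ρ φ J u) ^ 2) volume U (2 * U) := by
    have := GG_ii' hD (H := fun p : ℝ × ℝ => (p.2 - sg * Lo m c α ρ φ J p.1) ^ 2)
      ((continuous_snd.sub ((hLoc.comp continuous_fst).const_mul sg)).pow 2) hU0.le hU2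
    exact this
  have s1 : ∫ u in U..(2 * U), (GG m c α u - sg * Lo m c α ρ φ J u) ^ 2 ≤
      ∫ u in U..(2 * U), (3 * f1 u ^ 2 + 3 * f2 u ^ 2 + 3 * f3 u ^ 2) := by
    apply intervalIntegral.integral_mono_on hU2 iL (((i1.const_mul 3).add (i2.const_mul 3)).add (i3.const_mul 3))
    intro u _
    rw [hdec u]
    have e2 : (sg * f2 u) ^ 2 = f2 u ^ 2 := by rw [mul_pow, hsg2, one_mul]
    have e3 : (sg * f3 u) ^ 2 = f3 u ^ 2 := by rw [mul_pow, hsg2, one_mul]
    rw [← e2, ← e3]
    set x := f1 u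
    set y := sg * f2 u
    set z := sg * f3 u
    nlinarith [sq_nonneg (x - y), sq_nonneg (x - z), sq_nonneg (y - z)]
  have s2 : ∫ u in U..(2 * U), (3 * f1 u ^ 2 + 3 * f2 u ^ 2 + 3 * f3 u ^ 2) =
      3 * (∫ u in U..(2 * U), f1 u ^ 2) + 3 * (∫ u in U..(2 * U), f2 u ^ 2) + 3 * (∫ u in U..(2 * U), f3 u ^ 2) := by
    rw [intervalIntegral.integral_add ((i1.const_mul 3).add (i2.const_mul 3)) (i3.const_mul 3),
      intervalIntegral.integral_add (i1.const_mul 3) (i2.const_mul 3), intervalIntegral.integral_const_mul,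
      intervalIntegral.integral_const_mul, intervalIntegral.integral_const_mul]
  set P := U ^ (2 * (m : ℝ) + 5 / 2 - kp m / 4) with hP
  have hP0 : 0 < P := by positivity
  have b1 : ∫ u in U..(2 * U), f1 u ^ 2 ≤ |K1| * P := by
    refine (hI1 U hUU1).trans ?_
    calc K1 * U ^ (2 * (m : ℝ) + 5 / 2 - 1 / 20) ≤ |K1| * U ^ (2 * (m : ℝ) + 5 / 2 - 1 / 20) := by
          have := le_abs_self K1
          gcongr
      _ ≤ |K1| * P := by
          apply mul_le_mul_of_nonneg_left _ (abs_nonneg _)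
          exact Real.rpow_le_rpow_of_exponent_le hU1' (by linarith)
  have b2 : ∫ u in U..(2 * U), f2 u ^ 2 ≤ 2 * K2 * P := by
    refine (smooth_L2 hψ hψ0 hψ1 hDc hU0.le hθ0 hθU).trans ?_
    refine (hI2 U hU1' hUc J hJ1 hJY).trans ?_
    have h1 : U ^ (2 * (m : ℝ) + 3 / 2) ≤ P := Real.rpow_le_rpow_of_exponent_le hU1' (by linarith)
    have h2 : U ^ (2 * (m : ℝ) + 5 / 2) * J ^ (-(1 / 4) : ℝ) = P := by
      rw [hJ, ← Real.rpow_mul hU0.le, ← Real.rpow_add hU0, hP]
      congr 1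
      ring
    rw [h2]
    calc K2 * (U ^ (2 * (m : ℝ) + 3 / 2) + P) ≤ K2 * (P + P) := by gcongr
      _ = _ := by ring
  have b3 : ∫ u in U..(2 * U), f3 u ^ 2 ≤ K3 ^ 2 * P := by
    set E := K3 * U ^ ((m : ℝ) + 1 / 4) * J ^ ((m : ℝ) + 1 / 2) * θ with hE
    have hE0 : 0 ≤ E := by positivity
    have h1 : ∀ u ∈ Icc U (2 * U), f3 u ^ 2 ≤ E ^ 2 := by
      intro u hu
      have h2 : |f3 u| ≤ E := by
        have e5 : E = ∫ v in (0:ℝ)..1, ψ v * E := by
          rw [intervalIntegral.integral_mul_const, hψ1, one_mul]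
        rw [e5, ← Real.norm_eq_abs]
        apply intervalIntegral.norm_integral_le_of_norm_le (by norm_num)
        · refine ae_of_all _ (fun v hv => ?_)
          rw [norm_mul, Real.norm_of_nonneg (hψ0 v), Real.norm_eq_abs]
          apply mul_le_mul_of_nonneg_left _ (hψ0 v)
          have hv1 : θ * v ≤ θ := by
            have := hv.2
            calc θ * v ≤ θ * 1 := by gcongr
              _ = θ := mul_one _
          have hv0 : 0 ≤ θ * v := mul_nonneg hθ0 hv.1.le
          refine (hI3 U (by linarith) J hJ1 (u - θ * v) ⟨by linarith [hu.1], by linarith [hu.2]⟩ u ⟨by linarith [hu.1], hu.2⟩).trans ?_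
          rw [hE]
          have : |u - θ * v - u| ≤ θ := by
            rw [show u - θ * v - u = -(θ * v) by ring, abs_neg, abs_of_nonneg hv0]
            exact hv1
          gcongr
        · apply Continuous.intervalIntegrable
          fun_prop
      rw [← sq_abs]
      gcongr
    calc ∫ u in U..(2 * U), f3 u ^ 2 ≤ ∫ u in U..(2 * U), E ^ 2 :=
          intervalIntegral.integral_mono_on hU2 i3 (continuous_const.intervalIntegrable _ _) h1
      _ = K3 ^ 2 * (U * (U ^ ((m : ℝ) + 1 / 4)) ^ 2 * (J ^ ((m : ℝ) + 1 / 2)) ^ 2 * θ ^ 2) := by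
          rw [intervalIntegral.integral_const, smul_eq_mul, hE]
          ring
      _ ≤ K3 ^ 2 * P := by
          apply mul_le_mul_of_nonneg_left _ (sq_nonneg _)
          have e1 : U * (U ^ ((m : ℝ) + 1 / 4)) ^ 2 * (J ^ ((m : ℝ) + 1 / 2)) ^ 2 * θ ^ 2 =
              U ^ (1 + ((m : ℝ) + 1 / 4) * 2 + kp m * (((m : ℝ) + 1 / 2) * 2) + 1 / 10 * 2) := by
            have k1 : (U ^ ((m : ℝ) + 1 / 4)) ^ 2 = U ^ (((m : ℝ) + 1 / 4) * 2) := by
              rw [Real.rpow_mul hU0.le, Real.rpow_ofNat]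
            have k2 : (J ^ ((m : ℝ) + 1 / 2)) ^ 2 = U ^ (kp m * (((m : ℝ) + 1 / 2) * 2)) := by
              rw [Real.rpow_mul hU0.le, ← hJ, Real.rpow_mul hJ0.le, Real.rpow_ofNat]
            have k3 : θ ^ 2 = U ^ ((1 / 10 : ℝ) * 2) := by
              rw [Real.rpow_mul hU0.le, ← hθ, Real.rpow_ofNat]
            rw [k1, k2, k3, Real.rpow_add hU0 _ ((1 / 10 : ℝ) * 2), Real.rpow_add hU0 _ (kp m * (((m : ℝ) + 1 / 2) * 2)),
              Real.rpow_add hU0 1, Real.rpow_one]
          rw [e1]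
          apply Real.rpow_le_rpow_of_exponent_le hU1'
          have e2 : kp m * (((m : ℝ) + 1 / 2) * 2) ≤ 1 / 8 := by
            unfold kp
            rw [div_mul_eq_mul_div, div_le_div_iff₀ (by positivity) (by norm_num)]
            linarith
          linarith
  calc ∫ u in U..(2 * U), (GG m c α u - sg * Lo m c α ρ φ J u) ^ 2
      ≤ 3 * (∫ u in U..(2 * U), f1 u ^ 2) + 3 * (∫ u in U..(2 * U), f2 u ^ 2) + 3 * (∫ u in U..(2 * U), f3 u ^ 2) := by
        rw [← s2]; exact s1
    _ ≤ 3 * (|K1| * P) + 3 * (2 * K2 * P) + 3 * (K3 ^ 2 * P) := by gcongr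
    _ = _ := by ring

end Pool.Agent.H295.SM2
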